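import Mathlib
import Pool.Agent.helper70.GB.Defs

/-!
Local-global principle (Quillen, Vaserstein) for rows under the action of `SL_n`.
-/

namespace GB

open Polynomial

/-- two rows of length `n` are in the same orbit of `SL_n` -/
def LG_SLEq {ι : Type*} [Fintype ι] [DecidableEq ι] {A : Type*} [CommRing A] (v w : ι → A) : Prop :=
  ∃ M : Matrix ι ι A, M.det = 1 ∧ Matrix.vecMul v M = w

section basic

variable {ι : Type*} [Fintype ι] [DecidableEq ι] {A B : Type*} [CommRing A] [CommRing B]

theorem LG_SLEq.refl (v : ι → A) : LG_SLEq v v := ⟨1, by simp, by simp⟩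

theorem LG_SLEq.trans {u v w : ι → A} (h1 : LG_SLEq u v) (h2 : LG_SLEq v w) : LG_SLEq u w := by
  obtain ⟨M, hM, h⟩ := h1
  obtain ⟨N, hN, h'⟩ := h2
  exact ⟨M * N, by simp [hM, hN], by rw [← Matrix.vecMul_vecMul, h, h']⟩

theorem LG_SLEq.symm {u v : ι → A} (h1 : LG_SLEq u v) : LG_SLEq v u := by
  obtain ⟨M, hM, h⟩ := h1
  refine ⟨M.adjugate, ?_, ?_⟩
  · rw [Matrix.det_adjugate, hM, one_pow]
  · rw [← h, Matrix.vecMul_vecMul, Matrix.mul_adjugate, hM, one_smul, Matrix.vecMul_one]

omit [DecidableEq ι] in
theorem LG_vecMul_map (f : A →+* B) (v : ι → A) (M : Matrix ι ι A) :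
    Matrix.vecMul (fun i => f (v i)) (M.map f) = fun j => f (Matrix.vecMul v M j) := by
  funext j
  simp [Matrix.vecMul, dotProduct, Matrix.map_apply, map_sum]

theorem LG_det_map (f : A →+* B) (M : Matrix ι ι A) : (M.map f).det = f M.det := by
  rw [RingHom.map_det, RingHom.mapMatrix_apply]

theorem LG_SLEq.map (f : A →+* B) {u v : ι → A} (h1 : LG_SLEq u v) :
    LG_SLEq (fun i => f (u i)) (fun i => f (v i)) := by
  obtain ⟨M, hM, h⟩ := h1
  refine ⟨M.map f, ?_, ?_⟩
  · rw [LG_det_map, hM, map_one]
  · rw [LG_vecMul_map, h]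

end basic

section kill

variable {B B' : Type*} [CommRing B] [CommRing B'] [Algebra B B']

theorem LG_kill (f : B) [IsLocalization.Away f B'] (g : B[X]) (h0 : g.coeff 0 = 0)
    (hg : g.map (algebraMap B B') = 0) :
    ∃ K : ℕ, ∀ k, K ≤ k → g.comp (C (f ^ k) * X) = 0 := by
  have h1 : ∀ i, ∃ k : ℕ, f ^ k * g.coeff i = 0 := by
    intro i
    have h2 : algebraMap B B' (g.coeff i) = 0 := by
      rw [← coeff_map, hg, coeff_zero]
    obtain ⟨⟨_, k, rfl⟩, hk⟩ := (IsLocalization.map_eq_zero_iff (Submonoid.powers f) B' _).1 h2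
    exact ⟨k, hk⟩
  choose κ hκ using h1
  refine ⟨g.support.sup κ, fun k hk => ?_⟩
  ext i
  rw [comp_C_mul_X_coeff, coeff_zero]
  by_cases hi : i ∈ g.support
  · have hi0 : i ≠ 0 := by
      rintro rfl
      exact (mem_support_iff.1 hi) h0
    have h3 : κ i ≤ k * i := by
      have h4 : κ i ≤ k := le_trans (Finset.le_sup hi) hk
      have h5 : 1 ≤ i := Nat.one_le_iff_ne_zero.2 hi0
      nlinarith
    obtain ⟨c, hc⟩ := Nat.exists_eq_add_of_le h3
    rw [← pow_mul, hc, pow_add]
    calc g.coeff i * (f ^ κ i * f ^ c) = (f ^ κ i * g.coeff i) * f ^ c := by ring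
      _ = 0 := by rw [hκ, zero_mul]
  · rw [notMem_support_iff.1 hi, zero_mul]

theorem LG_lift1 (f : B) [IsLocalization.Away f B'] (h : B'[X]) (c : B)
    (h0 : h.coeff 0 = algebraMap B B' c) :
    ∃ K : ℕ, ∀ k, K ≤ k → ∃ g : B[X], g.coeff 0 = c ∧
      g.map (algebraMap B B') = h.comp (C (algebraMap B B' f ^ k) * X) := by
  have h1 : ∀ i, ∃ k : ℕ, ∃ b : B, algebraMap B B' b = (algebraMap B B' f) ^ k * h.coeff i := by
    intro i
    obtain ⟨⟨b, ⟨_, k, rfl⟩⟩, hk⟩ := IsLocalization.surj (Submonoid.powers f) (h.coeff i)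
    exact ⟨k, b, by rw [← hk]; simp [mul_comm]⟩
  choose κ b hκ using h1
  refine ⟨h.support.sup κ, fun k hk => ?_⟩
  have h2 : ∀ i ∈ h.support.erase 0, ∃ e : B, algebraMap B B' e =
      h.coeff i * ((algebraMap B B' f) ^ k) ^ i := by
    intro i hi
    have h3 : κ i ≤ k * i := by
      have h4 : κ i ≤ k := le_trans (Finset.le_sup (Finset.mem_of_mem_erase hi)) hk
      have h5 : 1 ≤ i := Nat.one_le_iff_ne_zero.2 (Finset.ne_of_mem_erase hi)
      nlinarith
    obtain ⟨c, hc⟩ := Nat.exists_eq_add_of_le h3
    refine ⟨b i * f ^ c, ?_⟩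
    rw [← pow_mul, hc, pow_add, map_mul, hκ, map_pow]
    ring
  have h2' : ∀ i, ∃ e : B, i ∈ h.support.erase 0 → algebraMap B B' e =
      h.coeff i * ((algebraMap B B' f) ^ k) ^ i := by
    intro i
    by_cases hi : i ∈ h.support.erase 0
    · obtain ⟨e, he⟩ := h2 i hi
      exact ⟨e, fun _ => he⟩
    · exact ⟨0, fun hh => absurd hh hi⟩
  choose e he using h2'
  refine ⟨C c + ∑ i ∈ h.support.erase 0, monomial i (e i), ?_, ?_⟩
  · rw [coeff_add, coeff_C_zero, finsetSum_coeff, Finset.sum_eq_zero, add_zero]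
    intro i hi
    rw [coeff_monomial, if_neg (Finset.ne_of_mem_erase hi)]
  · ext j
    rw [comp_C_mul_X_coeff, Polynomial.map_add, map_C, Polynomial.map_sum, coeff_add,
      finsetSum_coeff]
    simp only [map_monomial, coeff_monomial]
    rw [Finset.sum_ite_eq' (h.support.erase 0) j]
    by_cases hj : j = 0
    · subst hj
      simp [h0]
    · rw [coeff_C_of_ne_zero hj, zero_add]
      by_cases hj2 : j ∈ h.support
      · rw [if_pos (Finset.mem_erase.2 ⟨hj, hj2⟩), he _ (Finset.mem_erase.2 ⟨hj, hj2⟩)]
      · rw [if_neg (fun hh => hj2 (Finset.mem_of_mem_erase hh)), notMem_support_iff.1 hj2, zero_mul]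

end kill

section translation

variable {S : Type*} [CommRing S]

/-- `p(X) ↦ p(X + a Y)`, with values in `S[X][Y]` -/
noncomputable def LG_tr (a : S) : S[X] →+* S[X][X] :=
  eval₂RingHom ((C : S[X] →+* S[X][X]).comp (C : S →+* S[X])) (C X + C (C a) * X)

theorem LG_tr_C (a b : S) : LG_tr a (C b) = C (C b) := by
  simp [LG_tr]

theorem LG_tr_X (a : S) : LG_tr a X = C X + C (C a) * X := by
  simp [LG_tr]

theorem LG_tr_coeff_zero (a : S) (p : S[X]) : (LG_tr a p).coeff 0 = p := by
  have h : ((constantCoeff : S[X][X] →+* S[X]).comp (LG_tr a)) = RingHom.id _ := by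
    ext
    · simp [LG_tr_C]
    · simp [LG_tr_X]
  exact congrArg (fun φ => φ p) h

/-- `p(X) ↦ p(X + a r Y)` is obtained by the substitution `Y ↦ r Y` -/
theorem LG_tr_mul (a r : S) (p : S[X]) : LG_tr (a * r) p = (LG_tr a p).comp (C (C r) * X) := by
  have h : (LG_tr (a * r)) = (compRingHom (C (C r) * X)).comp (LG_tr a) := by
    refine Polynomial.ringHom_ext (fun c => ?_) ?_
    · simp [LG_tr_C]
    · simp only [LG_tr_X, RingHom.comp_apply, coe_compRingHom_apply, add_comp, mul_comp, C_comp,
        X_comp, map_mul]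
      ring
  rw [h]
  rfl

/-- the substitution `X ↦ X + a Y, Y ↦ Y` -/
noncomputable def LG_th (a : S) : S[X][X] →+* S[X][X] := eval₂RingHom (LG_tr a) X

theorem LG_th_C (a : S) (p : S[X]) : LG_th a (C p) = LG_tr a p := by
  simp [LG_th]

theorem LG_th_tr (a b : S) (p : S[X]) : LG_th a (LG_tr b p) = LG_tr (a + b) p := by
  have h : (LG_th a).comp (LG_tr b) = LG_tr (a + b) := by
    refine Polynomial.ringHom_ext (fun c => ?_) ?_
    · simp [LG_tr_C, LG_th]
    · rw [RingHom.comp_apply, LG_tr_X, LG_tr_X, map_add, map_mul, LG_th_C, LG_th_C, LG_tr_X, LG_tr_C]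
      simp only [LG_th, coe_eval₂RingHom, eval₂_X, map_add]
      ring
  exact congrArg (fun φ => φ p) h

/-- the substitution `X ↦ 0, Y ↦ X` -/
noncomputable def LG_fin : S[X][X] →+* S[X] := mapRingHom (constantCoeff : S[X] →+* S)

theorem LG_fin_C (p : S[X]) : LG_fin (C p) = C (p.coeff 0) := by
  simp [LG_fin]

theorem LG_fin_tr (p : S[X]) : LG_fin (LG_tr 1 p) = p := by
  have h : (LG_fin).comp (LG_tr (1 : S)) = RingHom.id _ := by
    ext x
    · simp [LG_tr_C, LG_fin]
    · simp [LG_tr_X, LG_fin]
  exact congrArg (fun φ => φ p) h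

end translation

section loc

variable {S : Type*} [CommRing S] {ι : Type*} [Fintype ι] [DecidableEq ι]

/-- local step: if `v` and `v(0)` are in the same orbit over `S_f[X]` (any localization `B'` of
`S[X]` away from `f`), then `v(X + f^k Y)` and `v(X)` are in the same orbit over `S[X][Y]` -/
theorem LG_loc_step (f : S) (B' : Type*) [CommRing B'] [Algebra S[X] B']
    [IsLocalization.Away (C f : S[X]) B'] (v : ι → S[X])
    (h : LG_SLEq (fun i => algebraMap S[X] B' (v i))
      (fun i => algebraMap S[X] B' (C ((v i).coeff 0)))) :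
    ∃ k : ℕ, LG_SLEq (fun i => (C (v i) : S[X][X])) (fun i => LG_tr (f ^ k) (v i)) := by
  obtain ⟨σ, hσ, hv⟩ := h
  -- the ring homomorphism `Φ : B' → B'[Y]` extending `X ↦ X + Y`
  set inc : S[X][X] →+* B'[X] := mapRingHom (algebraMap S[X] B') with hinc
  have hunit : IsUnit ((inc.comp (LG_tr 1)) (C f)) := by
    rw [RingHom.comp_apply, LG_tr_C, hinc, coe_mapRingHom, map_C]
    exact (IsLocalization.Away.algebraMap_isUnit (S := B') (C f : S[X])).map C
  set Φ : B' →+* B'[X] := IsLocalization.Away.lift (C f : S[X]) hunit with hΦ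
  have hΦa : ∀ p : S[X], Φ (algebraMap S[X] B' p) = inc (LG_tr 1 p) := by
    intro p
    rw [hΦ, IsLocalization.Away.lift_eq]
    rfl
  have hΦ0 : ∀ b : B', (Φ b).coeff 0 = b := by
    have h1 : ((constantCoeff : B'[X] →+* B').comp Φ) = RingHom.id B' := by
      refine IsLocalization.ringHom_ext (Submonoid.powers (C f : S[X])) ?_
      refine RingHom.ext (fun p => ?_)
      rw [RingHom.comp_apply, RingHom.comp_apply, hΦa, RingHom.comp_apply, RingHom.id_apply,
        constantCoeff_apply, hinc, coe_mapRingHom, coeff_map, LG_tr_coeff_zero]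
    intro b
    exact congrArg (fun φ => φ b) h1
  -- `τ = σ(X) σ(X+Y)^{-1}`
  set τ : Matrix ι ι B'[X] := σ.map C * (σ.adjugate).map Φ with hτ
  have hτdet : τ.det = 1 := by
    have e1 : (σ.map (C : B' →+* B'[X])).det = 1 := by rw [LG_det_map, hσ, map_one]
    have e2 : ((σ.adjugate).map Φ).det = 1 := by
      rw [LG_det_map, Matrix.det_adjugate, hσ, one_pow, map_one]
    rw [hτ, Matrix.det_mul, e1, e2, one_mul]
  have hτv : Matrix.vecMul (fun i => (C (algebraMap S[X] B' (v i)) : B'[X])) τ =
      fun i => inc (LG_tr 1 (v i)) := by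
    have e1 : Matrix.vecMul (fun i => (C (algebraMap S[X] B' (v i)) : B'[X])) (σ.map C) =
        fun i => (Φ (algebraMap S[X] B' (C ((v i).coeff 0)))) := by
      rw [LG_vecMul_map, hv]
      funext i
      rw [hΦa, LG_tr_C, hinc, coe_mapRingHom, map_C]
    have e2 : Matrix.vecMul (fun i => algebraMap S[X] B' (C ((v i).coeff 0))) σ.adjugate =
        fun i => algebraMap S[X] B' (v i) := by
      rw [← hv, Matrix.vecMul_vecMul, Matrix.mul_adjugate, hσ, one_smul, Matrix.vecMul_one]
    rw [hτ, ← Matrix.vecMul_vecMul, e1, LG_vecMul_map, e2]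
    funext i
    rw [hΦa]
  have hτ0 : ∀ i j, (τ i j).coeff 0 = algebraMap S[X] B' ((1 : Matrix ι ι S[X]) i j) := by
    intro i j
    have e1 : τ.map (constantCoeff : B'[X] →+* B') = 1 := by
      rw [hτ, Matrix.map_mul]
      have e2 : (σ.map (C : B' →+* B'[X])).map (constantCoeff : B'[X] →+* B') = σ := by
        ext i j; simp
      have e3 : ((σ.adjugate).map Φ).map (constantCoeff : B'[X] →+* B') = σ.adjugate := by
        ext i j
        simp only [Matrix.map_apply, constantCoeff_apply, hΦ0]
      rw [e2, e3, Matrix.mul_adjugate, hσ, one_smul]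
    have e4 := congrFun (congrFun e1 i) j
    rw [Matrix.map_apply, constantCoeff_apply] at e4
    rw [e4, Matrix.one_apply, Matrix.one_apply]
    split_ifs <;> simp
  -- lift the entries
  have hlift := fun i j => LG_lift1 (B' := B') (C f : S[X]) (τ i j) _ (hτ0 i j)
  choose κ hκ using hlift
  set k := Finset.univ.sup (fun i => Finset.univ.sup (fun j => κ i j)) with hk
  have hk' : ∀ i j, κ i j ≤ k := fun i j =>
    le_trans (Finset.le_sup (f := fun j => κ i j) (Finset.mem_univ j))
      (Finset.le_sup (f := fun i => Finset.univ.sup (fun j => κ i j)) (Finset.mem_univ i))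
  have hlift2 := fun i j => hκ i j k (hk' i j)
  choose g hg0 hg using hlift2
  set T : Matrix ι ι S[X][X] := Matrix.of g with hT
  set sc' : B'[X] →+* B'[X] := compRingHom (C (algebraMap S[X] B' (C f) ^ k) * X) with hsc'
  have hT0 : T.map (constantCoeff : S[X][X] →+* S[X]) = 1 := by
    ext i j
    rw [Matrix.map_apply, constantCoeff_apply, hT, Matrix.of_apply, hg0]
  have hTinc : T.map inc = τ.map sc' := by
    ext i j : 2
    rw [Matrix.map_apply, Matrix.map_apply, hT, Matrix.of_apply, hinc, coe_mapRingHom, hg, hsc',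
      coe_compRingHom_apply]
  -- the determinant
  have hd0 : (T.det - 1).coeff 0 = 0 := by
    have e1 := LG_det_map (constantCoeff : S[X][X] →+* S[X]) T
    rw [hT0, Matrix.det_one, constantCoeff_apply] at e1
    rw [coeff_sub, ← e1, coeff_one_zero, sub_self]
  have hd1 : (T.det - 1).map (algebraMap S[X] B') = 0 := by
    have e1 := LG_det_map inc T
    rw [hTinc, LG_det_map, hτdet, map_one] at e1
    rw [Polynomial.map_sub, Polynomial.map_one]
    have e2 : inc T.det = (T.det).map (algebraMap S[X] B') := rfl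
    rw [← e2, ← e1, sub_self]
  obtain ⟨K1, hK1⟩ := LG_kill (B' := B') (C f : S[X]) _ hd0 hd1
  -- the row
  have hr0 : ∀ i, (Matrix.vecMul (fun i => (C (v i) : S[X][X])) T i - LG_tr (f ^ k) (v i)).coeff 0 = 0 := by
    intro i
    have e1 := congrFun (LG_vecMul_map (constantCoeff : S[X][X] →+* S[X])
      (fun i => (C (v i) : S[X][X])) T) i
    rw [hT0, Matrix.vecMul_one] at e1
    simp only [constantCoeff_apply, coeff_C_zero] at e1
    rw [coeff_sub, ← e1, LG_tr_coeff_zero, sub_self]
  have hr1 : ∀ i, (Matrix.vecMul (fun i => (C (v i) : S[X][X])) T i - LG_tr (f ^ k) (v i)).map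
      (algebraMap S[X] B') = 0 := by
    intro i
    have e1 := congrFun (LG_vecMul_map inc (fun i => (C (v i) : S[X][X])) T) i
    have e3 := congrFun (LG_vecMul_map sc' (fun i => (C (algebraMap S[X] B' (v i)) : B'[X])) τ) i
    rw [hTinc] at e1
    have e4 : (fun i => sc' ((C (algebraMap S[X] B' (v i)) : B'[X]))) =
        fun i => inc (C (v i)) := by
      funext i
      rw [hsc', coe_compRingHom_apply, C_comp, hinc, coe_mapRingHom, map_C]
    rw [e4, e1, hτv] at e3
    rw [Polynomial.map_sub]
    have e2 : ∀ p : S[X][X], p.map (algebraMap S[X] B') = inc p := fun p => rfl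
    rw [e2, e2, e3, hsc', coe_compRingHom_apply]
    have e5 : LG_tr (f ^ k) (v i) = (LG_tr 1 (v i)).comp (C (C (f ^ k)) * X) := by
      rw [← LG_tr_mul, one_mul]
    rw [e5, hinc, coe_mapRingHom, Polynomial.map_comp]
    simp
  have hkill := fun i => LG_kill (B' := B') (C f : S[X]) _ (hr0 i) (hr1 i)
  choose K2 hK2 using hkill
  set m := max K1 (Finset.univ.sup K2) with hm
  have hm1 : K1 ≤ m := le_max_left _ _
  have hm2 : ∀ i, K2 i ≤ m := fun i => le_trans (Finset.le_sup (Finset.mem_univ i)) (le_max_right _ _)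
  refine ⟨k + m, T.map (compRingHom (C (C f ^ m) * X)), ?_, ?_⟩
  · have e1 := hK1 m hm1
    rw [sub_comp, one_comp, sub_eq_zero] at e1
    rw [LG_det_map, coe_compRingHom_apply, e1]
  · funext i
    have e1 := hK2 i m (hm2 i)
    rw [sub_comp, sub_eq_zero] at e1
    have e2 := congrFun (LG_vecMul_map (compRingHom (C (C f ^ m) * X)) (fun i => (C (v i) : S[X][X])) T) i
    have e4 : (fun i => (compRingHom (C (C f ^ m) * X)) ((C (v i) : S[X][X]))) =
        fun i => (C (v i)) := by
      funext i
      rw [coe_compRingHom_apply, C_comp]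
    rw [e4] at e2
    rw [e2, coe_compRingHom_apply, e1, pow_add, LG_tr_mul]
    simp only [map_pow]

/-- descent from a localization at a submonoid to the localization away from one element -/
theorem LG_exists_away {T : Type*} [CommRing T] (W : Submonoid T) (L : Type*) [CommRing L]
    [Algebra T L] [IsLocalization W L] (v w : ι → T)
    (h : LG_SLEq (fun i => algebraMap T L (v i)) (fun i => algebraMap T L (w i))) :
    ∃ f ∈ W, ∀ (L' : Type*) [CommRing L'] [Algebra T L'] [IsLocalization.Away f L'],
      LG_SLEq (fun i => algebraMap T L' (v i)) (fun i => algebraMap T L' (w i)) := by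
  obtain ⟨M, hM, hv⟩ := h
  obtain ⟨s, hs⟩ := IsLocalization.exist_integer_multiples_of_finite W (S := L)
    (fun p : ι × ι => M p.1 p.2)
  have hs' : ∀ i j, ∃ c : T, algebraMap T L c = algebraMap T L s * M i j := by
    intro i j
    obtain ⟨c, hc⟩ := hs (i, j)
    exact ⟨c, by rw [hc, Algebra.smul_def]⟩
  choose N hN using hs'
  have hN' : (Matrix.of N).map (algebraMap T L) = (algebraMap T L s) • M := by
    ext i j
    simp [hN]
  have h1 : algebraMap T L (Matrix.det (Matrix.of N)) = algebraMap T L ((s : T) ^ Fintype.card ι) := by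
    rw [← LG_det_map, hN', Matrix.det_smul, hM, mul_one, map_pow]
  obtain ⟨c1, hc1⟩ := (IsLocalization.eq_iff_exists W L).1 h1
  have h2 : ∀ i, algebraMap T L (Matrix.vecMul v (Matrix.of N) i) = algebraMap T L (s * w i) := by
    intro i
    have e1 := congrFun (LG_vecMul_map (algebraMap T L) v (Matrix.of N)) i
    rw [hN', Matrix.vecMul_smul, hv] at e1
    rw [← e1, map_mul]
    simp
  have h3 : ∀ i, ∃ c : W, (c : T) * Matrix.vecMul v (Matrix.of N) i = c * (s * w i) :=
    fun i => (IsLocalization.eq_iff_exists W L).1 (h2 i)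
  choose c2 hc2 using h3
  refine ⟨s * c1 * ∏ i, (c2 i : T), ?_, ?_⟩
  · exact W.mul_mem (W.mul_mem s.2 c1.2) (W.prod_mem (fun i _ => (c2 i).2))
  · intro L' _ _ _
    have hu : IsUnit (algebraMap T L' (s * c1 * ∏ i, (c2 i : T))) :=
      IsLocalization.Away.algebraMap_isUnit _
    rw [map_mul, map_mul] at hu
    have hu1 : IsUnit (algebraMap T L' s) := isUnit_of_mul_isUnit_left (isUnit_of_mul_isUnit_left hu)
    have hu2 : IsUnit (algebraMap T L' c1) := isUnit_of_mul_isUnit_right (isUnit_of_mul_isUnit_left hu)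
    have hu3 : ∀ i, IsUnit (algebraMap T L' (c2 i)) := by
      intro i
      have e1 := isUnit_of_mul_isUnit_right hu
      rw [map_prod] at e1
      exact isUnit_of_dvd_unit
        (Finset.dvd_prod_of_mem (fun i => algebraMap T L' (c2 i : T)) (Finset.mem_univ i)) e1
    obtain ⟨u, hu⟩ := hu1
    refine ⟨(↑u⁻¹ : L') • (Matrix.of N).map (algebraMap T L'), ?_, ?_⟩
    · rw [Matrix.det_smul, LG_det_map]
      have e1 : algebraMap T L' (Matrix.det (Matrix.of N)) = algebraMap T L' ((s : T) ^ Fintype.card ι) := by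
        have e2 := congrArg (algebraMap T L') hc1
        rw [map_mul, map_mul] at e2
        exact hu2.mul_left_cancel e2
      rw [e1, map_pow, ← hu, ← mul_pow, Units.inv_mul, one_pow]
    · rw [Matrix.vecMul_smul, LG_vecMul_map]
      funext i
      rw [Pi.smul_apply, smul_eq_mul]
      have e1 : algebraMap T L' (Matrix.vecMul v (Matrix.of N) i) = algebraMap T L' (s * w i) := by
        have e2 := congrArg (algebraMap T L') (hc2 i)
        rw [map_mul, map_mul] at e2
        exact (hu3 i).mul_left_cancel e2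
      rw [e1, map_mul, ← hu, ← mul_assoc, Units.inv_mul, one_mul]

/-- the Quillen ideal -/
theorem LG_quillen_ideal {R : Type*} [CommRing R] [Algebra R S] (v : ι → S[X]) :
    ∃ J : Ideal R, ∀ r : R, r ∈ J ↔
      LG_SLEq (fun i => (C (v i) : S[X][X])) (fun i => LG_tr (algebraMap R S r) (v i)) := by
  refine ⟨{ carrier := {r : R | LG_SLEq (fun i => (C (v i) : S[X][X]))
              (fun i => LG_tr (algebraMap R S r) (v i))}, add_mem' := ?_, zero_mem' := ?_,
            smul_mem' := ?_ }, fun r => Iff.rfl⟩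
  · intro a b ha hb
    have ha' : LG_SLEq (fun i => (C (v i) : S[X][X])) (fun i => LG_tr (algebraMap R S a) (v i)) := ha
    have hb' : LG_SLEq (fun i => (C (v i) : S[X][X])) (fun i => LG_tr (algebraMap R S b) (v i)) := hb
    have h1 := hb'.map (LG_th (algebraMap R S a))
    simp only [LG_th_C, LG_th_tr] at h1
    have h2 := ha'.trans h1
    show LG_SLEq _ _
    rw [map_add]
    exact h2
  · show LG_SLEq _ _
    have h1 : ∀ p : S[X], LG_tr (algebraMap R S 0) p = C p := by
      intro p
      have h : (LG_tr (algebraMap R S 0)) = (C : S[X] →+* S[X][X]) := by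
        refine Polynomial.ringHom_ext (fun c => ?_) ?_
        · simp [LG_tr_C]
        · simp [LG_tr_X]
      rw [h]
    simp only [h1]
    exact LG_SLEq.refl _
  · intro c a ha
    have ha' : LG_SLEq (fun i => (C (v i) : S[X][X])) (fun i => LG_tr (algebraMap R S a) (v i)) := ha
    have h1 := ha'.map (compRingHom (C (C (algebraMap R S c)) * X))
    simp only [coe_compRingHom_apply, C_comp, ← LG_tr_mul] at h1
    show LG_SLEq _ _
    rw [smul_eq_mul, mul_comm, map_mul]
    exact h1

theorem LG_of_quillen_ideal (v : ι → S[X])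
    (h : LG_SLEq (fun i => (C (v i) : S[X][X])) (fun i => LG_tr (1 : S) (v i))) :
    LG_SLEq v (fun i => C ((v i).coeff 0)) := by
  have h1 := h.map LG_fin
  simp only [LG_fin_C, LG_fin_tr] at h1
  exact h1.symm

/-- **Local-global principle**, version with localizations away from elements. -/
theorem LG_local_global_away {R : Type*} [CommRing R] [Algebra R S] (v : ι → S[X])
    (h : ∀ m : Ideal R, m.IsMaximal → ∃ f : R, f ∉ m ∧
      LG_SLEq (fun i => algebraMap S[X] (Localization.Away (C (algebraMap R S f) : S[X])) (v i))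
        (fun i => algebraMap S[X] (Localization.Away (C (algebraMap R S f) : S[X]))
          (C ((v i).coeff 0)))) :
    LG_SLEq v (fun i => C ((v i).coeff 0)) := by
  obtain ⟨J, hJ⟩ := LG_quillen_ideal (R := R) v
  have hJtop : J = ⊤ := by
    by_contra hne
    obtain ⟨m, hm, hJm⟩ := Ideal.exists_le_maximal J hne
    obtain ⟨f, hf, hrow⟩ := h m hm
    obtain ⟨k, hk⟩ := LG_loc_step (algebraMap R S f) _ v hrow
    have h1 : f ^ k ∈ J := by
      rw [hJ, map_pow]
      exact hk
    exact hf (hm.isPrime.mem_of_pow_mem k (hJm h1))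
  have h1 : (1 : R) ∈ J := by rw [hJtop]; trivial
  rw [hJ, map_one] at h1
  exact LG_of_quillen_ideal v h1

/-- **Local-global principle.**  `S` is an algebra over `R`; if over `S_m[X]` (any localization
`L` of `S[X]` at a submonoid `W` consisting of images of elements of `R ∖ m`) the rows `v` and
`v(0)` are in the same orbit of `SL_n`, for every maximal ideal `m` of `R`, then they are in the
same orbit over `S[X]`. -/
theorem LG_local_global {R : Type*} [CommRing R] [Algebra R S] (v : ι → S[X])
    (h : ∀ m : Ideal R, m.IsMaximal → ∃ W : Submonoid S[X],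
      (∀ x ∈ W, ∃ r : R, r ∉ m ∧ C (algebraMap R S r) = x) ∧
      LG_SLEq (fun i => algebraMap S[X] (Localization W) (v i))
        (fun i => algebraMap S[X] (Localization W) (C ((v i).coeff 0)))) :
    LG_SLEq v (fun i => C ((v i).coeff 0)) := by
  refine LG_local_global_away (R := R) v (fun m hm => ?_)
  obtain ⟨W, hW, hrow⟩ := h m hm
  obtain ⟨x, hx, hx'⟩ := LG_exists_away W (Localization W) v _ hrow
  obtain ⟨r, hr, rfl⟩ := hW x hx
  exact ⟨r, hr, hx' _⟩

/-- **Local-global principle** over the base ring itself, with `S_m[X]` as a polynomial ring over the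
localization of the algebra `S` at `R ∖ m`. -/
theorem LG_local_global_prime {R : Type*} [CommRing R] [Algebra R S] (v : ι → S[X])
    (h : ∀ (m : Ideal R) [m.IsMaximal],
      LG_SLEq (fun i => (v i).map (algebraMap S (Localization (Algebra.algebraMapSubmonoid S m.primeCompl))))
        (fun i => C (algebraMap S (Localization (Algebra.algebraMapSubmonoid S m.primeCompl))
          ((v i).coeff 0)))) :
    LG_SLEq v (fun i => C ((v i).coeff 0)) := by
  refine LG_local_global_away (R := R) v (fun m hm => ?_)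
  set W : Submonoid S := Algebra.algebraMapSubmonoid S m.primeCompl with hW
  let _ : Algebra S[X] (Localization W)[X] := (mapRingHom (algebraMap S (Localization W))).toAlgebra
  have _ : IsLocalization (W.map (C : S →+* S[X])) (Localization W)[X] :=
    Polynomial.isLocalization W (Localization W)
  have hrow := h m
  obtain ⟨x, hx, hx'⟩ := LG_exists_away (W.map (C : S →+* S[X])) (Localization W)[X] v
    (fun i => C ((v i).coeff 0)) (by
      have e1 : ∀ p : S[X], algebraMap S[X] (Localization W)[X] p =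
        p.map (algebraMap S (Localization W)) := fun p => rfl
      simp only [e1, map_C]
      exact hrow)
  obtain ⟨y, ⟨r, hr, rfl⟩, rfl⟩ := hx
  exact ⟨r, hr, hx' _⟩

end loc

section final

variable {ι : Type*} [Fintype ι] [DecidableEq ι]

theorem LG_SLEq.gEq {A : Type*} [CommRing A] {v w : ι → A} (h : LG_SLEq v w) : GEq v w := by
  obtain ⟨M, hM, h⟩ := h
  exact ⟨M, by rw [hM]; exact isUnit_one, h.symm⟩

/-- a completable row of length at least two over `A[X]` is in the `SL`-orbit of its value at `0` -/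
theorem LG_of_comp {A : Type*} [CommRing A] [Nontrivial ι] {v : ι → A[X]} (h : Comp v) :
    LG_SLEq v (fun i => C ((v i).coeff 0)) := by
  obtain ⟨i, M, hM, rfl⟩ := h
  obtain ⟨j, hj⟩ := exists_ne i
  obtain ⟨u, hu⟩ := hM
  -- make the determinant one
  set N : Matrix ι ι A[X] := M.updateRow j ((↑u⁻¹ : A[X]) • M j) with hN
  have hNdet : N.det = 1 := by
    rw [hN, Matrix.det_updateRow_smul, Matrix.updateRow_eq_self, ← hu, Units.inv_mul]
  have hNi : N i = M i := by
    rw [hN]
    exact Matrix.updateRow_ne hj.symm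
  set N0 : Matrix ι ι A[X] := N.map (fun p => C (p.coeff 0)) with hN0
  have hN0' : N0 = N.map ((C : A →+* A[X]).comp (constantCoeff : A[X] →+* A)) := by
    ext i j : 2
    rw [hN0, Matrix.map_apply, Matrix.map_apply, RingHom.comp_apply, constantCoeff_apply]
  have hN0det : N0.det = 1 := by
    rw [hN0', LG_det_map, hNdet, map_one]
  refine ⟨N.adjugate * N0, ?_, ?_⟩
  · rw [Matrix.det_mul, Matrix.det_adjugate, hNdet, one_pow, hN0det, one_mul]
  · rw [← Matrix.vecMul_vecMul, ← hNi]
    have e1 : N i = Matrix.vecMul (Pi.single i 1) N := by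
      rw [Matrix.single_one_vecMul]; rfl
    have e2 : Matrix.vecMul (N i) N.adjugate = Pi.single i 1 := by
      rw [e1, Matrix.vecMul_vecMul, Matrix.mul_adjugate, hNdet, one_smul, Matrix.vecMul_one]
    rw [e2, Matrix.single_one_vecMul]
    rfl

/-- **Local-global principle** for unimodular rows over `S[X]`, `S` an algebra over `R`, with
localizations at the maximal ideals of `R`. -/
theorem LG_alg {R S : Type*} [CommRing R] [CommRing S] [Algebra R S] (v : ι → S[X]) (hv : Um v)
    (h : ∀ (m : Ideal R) [m.IsMaximal],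
      Comp (fun i => (v i).map (algebraMap S
        (Localization (Algebra.algebraMapSubmonoid S m.primeCompl))))) :
    GEq v (fun i => C ((v i).coeff 0)) := by
  rcases subsingleton_or_nontrivial ι with hι | hι
  · rcases isEmpty_or_nonempty ι with hι' | ⟨⟨i⟩⟩
    · exact ⟨1, by simp, by funext i; exact (hι'.false i).elim⟩
    · obtain ⟨w, hw⟩ := hv
      have hun : ∀ j : ι, j = i := fun j => Subsingleton.elim j i
      have _ : Unique ι := ⟨⟨i⟩, hun⟩
      have h1 : v i * w i = 1 := by
        rw [dotProduct, Fintype.sum_eq_single i (fun j hj => absurd (hun j) hj)] at hw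
        exact hw
      have h2 : (v i).coeff 0 * (w i).coeff 0 = 1 := by
        have := congrArg (fun p => p.coeff 0) h1
        simpa [mul_coeff_zero] using this
      refine ⟨Matrix.of (fun _ _ => w i * C ((v i).coeff 0)), ?_, ?_⟩
      · rw [Matrix.det_unique]
        simp only [Matrix.of_apply]
        refine IsUnit.mul (IsUnit.of_mul_eq_one (v i) (by rw [mul_comm]; exact h1)) ?_
        exact (IsUnit.of_mul_eq_one _ h2).map C
      · funext j
        rw [hun j]
        simp only [Matrix.vecMul, dotProduct, Matrix.of_apply]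
        rw [Fintype.sum_eq_single i (fun j hj => absurd (hun j) hj), ← mul_assoc, h1, one_mul]
  · refine LG_SLEq.gEq (LG_local_global_prime (R := R) v (fun m hm => ?_))
    have hrow := LG_of_comp (h m)
    simp only [coeff_map] at hrow
    exact hrow

/-- **Local-global principle** for unimodular rows over `A[X]`. -/
theorem LG {A : Type*} [CommRing A] (v : ι → A[X]) (hv : Um v)
    (h : ∀ (m : Ideal A) [m.IsMaximal],
      Comp (fun i => (v i).map (algebraMap A (Localization.AtPrime m)))) :
    GEq v (fun i => C ((v i).coeff 0)) := by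
  refine LG_alg (R := A) v hv (fun m hm => ?_)
  have e1 : Algebra.algebraMapSubmonoid A m.primeCompl = m.primeCompl := Submonoid.map_id _
  have e2 : ∀ (W : Submonoid A), W = m.primeCompl →
      Comp (fun i => (v i).map (algebraMap A (Localization W))) := by
    rintro W rfl
    exact h m
  exact e2 _ e1

/-- **Local-global principle**, homotopy version, used for graded rings with `ψ(s) = ∑ s_j X^j`:
`ψ : S → S[X]` is a homomorphism over `R` with `ψ(s)(1) = s`.  If the unimodular row `v` is
completable over `S_m` for every maximal ideal `m` of `R`, then `v` is in the `GL`-orbit of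
`ψ(v)(0)` over `S`. -/
theorem LG_graded {R S : Type*} [CommRing R] [CommRing S] [Algebra R S] (ψ : S →ₐ[R] S[X])
    (h1 : ∀ s, (ψ s).eval 1 = s) (v : ι → S) (hv : Um v)
    (hloc : ∀ (m : Ideal R) [m.IsMaximal],
      Comp (fun i => algebraMap S (Localization (Algebra.algebraMapSubmonoid S m.primeCompl))
        (v i))) :
    GEq v (fun i => (ψ (v i)).coeff 0) := by
  have key : GEq (fun i => ψ (v i)) (fun i => C (((ψ (v i))).coeff 0)) := by
    refine LG_alg (R := R) (fun i => ψ (v i)) (hv.map (ψ : S →+* S[X])) ?_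
    intro m hm
    set W : Submonoid S := Algebra.algebraMapSubmonoid S m.primeCompl with hW
    set L := Localization W with hL
    have hunit : ∀ y : W, IsUnit (((mapRingHom (algebraMap S L)).comp (ψ : S →+* S[X])) y) := by
      rintro ⟨_, r, hr, rfl⟩
      have e1 : ((mapRingHom (algebraMap S L)).comp (ψ : S →+* S[X])) (algebraMap R S r) =
          C (algebraMap S L (algebraMap R S r)) := by
        rw [RingHom.comp_apply]
        have e2 : (ψ : S →+* S[X]) (algebraMap R S r) = C (algebraMap R S r) := by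
          have e3 := ψ.commutes r
          rw [Polynomial.algebraMap_apply] at e3
          exact e3
        rw [e2, coe_mapRingHom, map_C]
      show IsUnit (((mapRingHom (algebraMap S L)).comp (ψ : S →+* S[X])) (algebraMap R S r))
      rw [e1]
      exact (IsLocalization.map_units L (⟨algebraMap R S r, r, hr, rfl⟩ : W)).map C
    have e4 := (hloc m).map (IsLocalization.lift hunit)
    simp only [IsLocalization.lift_eq, RingHom.comp_apply, RingHom.coe_coe, coe_mapRingHom] at e4
    exact e4
  obtain ⟨M, hM, h⟩ := key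
  refine ⟨M.map (evalRingHom 1), ?_, ?_⟩
  · rw [LG_det_map]
    exact hM.map _
  · have e5 := LG_vecMul_map (evalRingHom 1) (fun i => ψ (v i)) M
    rw [← h] at e5
    have e6 : (fun i => evalRingHom 1 (ψ (v i))) = v := by
      funext i
      exact h1 _
    rw [e6] at e5
    rw [e5]
    funext i
    simp

end final

end GB
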