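import Pool.Agent.helper68.GB.Spec
import Pool.Agent.helper77.BR.LAM
import Pool.Agent.helper59.FI.Base

/-!
# Row gb:LAZ (MP_baa4d7_al): the weights, nonabelian defect groups
-/

set_option autoImplicit false

namespace Pool.Agent.GB

open Pool.Agent.helper58.DC Pool.Agent.DI Pool.Agent.GR Pool.Agent.OB Pool.Agent.DR Pool.Agent.FI Pool.Agent.FI3 Pool.Agent.FI4 Pool.Agent.LE Pool.Agent.BR

/-- the set of the transporters is `TT * L` -/
theorem LAZ_set (hFUZ : FUZ_stmt) {p : ℕ} {M : Ideal (integralClosure ℤ ℂ)} (hS : Setup p M)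
    {G : Type} [Group G] [Finite G] {D T : Subgroup G} {x : G} {θ χ : G → ℂ} (hz : ZS p M D T x θ χ) {v : G} (hv : v ∈ T) (g : G) :
    (g * v * g⁻¹ ∈ T ∧ SB M (Cz (⊤ : Subgroup G) v) θ (cjF g⁻¹ θ)) ↔
      ∃ t ∈ TT M D θ, ∃ c ∈ Cz (⊤ : Subgroup G) v, t * c = g := by
  have hcK : cz D ≤ Cz (⊤ : Subgroup G) v := by
    intro c hc
    rw [mem_Cz]
    exact ⟨Subgroup.mem_top c, (Subgroup.mem_centralizer_iff.1 hc) v (hz.tle hv)⟩
  have hth := hz.rt.th
  constructor
  · rintro ⟨h1, h2⟩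
    obtain ⟨τ, hτ, k, hk, rfl⟩ := hFUZ p M hS G D x θ χ hz.rt v (hz.tle hv) (hz.tcz hv) g (hz.tle h1) (hz.tcz h1) h2
    exact ⟨τ, hτ, k, hk, rfl⟩
  · rintro ⟨t, ht, k, hk, rfl⟩
    have hkz := (mem_Cz.1 hk).2
    constructor
    · have h1 : t * k * v * (t * k)⁻¹ = t * v * t⁻¹ := by
        calc t * k * v * (t * k)⁻¹ = t * (k * v) * k⁻¹ * t⁻¹ := by group
          _ = t * (v * k) * k⁻¹ * t⁻¹ := by rw [hkz]
          _ = t * v * t⁻¹ := by group
      rw [h1]
      exact hz.tnz t ht.1 v hv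
    · have h1 : cjF (t * k)⁻¹ θ = funMap (MulAut.conj k⁻¹) (funMap (MulAut.conj t⁻¹) θ) := by
        rw [← funMap_mul, mul_inv_rev]
      rw [h1]
      refine SB.symm ?_
      refine (SB_inner ((Cz (⊤ : Subgroup G) v).inv_mem hk) _).trans ?_
      have ht'' := (TT M D θ).inv_mem ht
      refine TRNb hcK ?_ (fun y hy => IrrOn_zero hth hy) ht''.2
      intro y hy
      rw [funMap_apply]
      refine IrrOn_zero hth fun h2 => hy ?_
      have h3 := cz_conj ht''.1 h2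
      have h4 : t⁻¹ * (t⁻¹⁻¹ * y * t⁻¹) * t⁻¹⁻¹ = y := by group
      rwa [h4] at h3

theorem LAZ_lx0 {G : Type} [Group G] {D : Subgroup G} {l : D →* ℂˣ} {v : G} (h : v ∉ D) : lx D l v = 0 := by
  unfold lx
  rw [dif_neg h]

/-- the case where `v` lies in `T` -/
theorem LAZ_in (hFUZ : FUZ_stmt) {p : ℕ} {M : Ideal (integralClosure ℤ ℂ)} (hS : Setup p M)
    {G : Type} [Group G] [Finite G] {D T : Subgroup G} {x : G} {θ χ : G → ℂ} (hz : ZS p M D T x θ χ) (l : T →* ℂˣ) {v : G} (hv : v ∈ T) :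
    LamZ M D T θ l v θ =
    (T.relIndex D : ℂ) * (∑ᶠ τ ∈ (TT M D θ : Set G), lx T l (τ * v * τ⁻¹)) / Nat.card (TT M D θ ⊓ cz T : Subgroup G) := by
  classical
  unfold LamZ
  set K := Cz (⊤ : Subgroup G) v with hK
  set S := TT M D θ with hT
  set F : G → ℂ := fun t => (T.relIndex D : ℂ) * ciT M D T θ (t * v * t⁻¹) / Nat.card K * lx T l (t * v * t⁻¹) with hFd
  have h1 : ∑ᶠ t ∈ {t : G | SB M K θ (cjF t⁻¹ θ)}, F t =
      ∑ᶠ t ∈ {t : G | t * v * t⁻¹ ∈ T ∧ SB M K θ (cjF t⁻¹ θ)}, F t := by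
    rw [finsum_mem_def, finsum_mem_def]
    refine finsum_congr fun t => ?_
    rw [Set.indicator_apply, Set.indicator_apply]
    by_cases ht : t * v * t⁻¹ ∈ T
    · refine if_congr ?_ rfl rfl
      exact ⟨fun h => ⟨ht, h⟩, fun h => h.2⟩
    · have h0 : F t = 0 := by
        rw [hFd]
        dsimp only
        rw [LAZ_lx0 ht, mul_zero]
      rw [h0, ite_self, ite_self]
  rw [h1]
  have hFc : ∀ t, ∀ c ∈ K, F (t * c) = F t := by
    intro t c hc
    have hcv := (mem_Cz.1 hc).2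
    have e : t * c * v * (t * c)⁻¹ = t * v * t⁻¹ := by
      calc t * c * v * (t * c)⁻¹ = t * (c * v) * c⁻¹ * t⁻¹ := by group
        _ = t * (v * c) * c⁻¹ * t⁻¹ := by rw [hcv]
        _ = t * v * t⁻¹ := by group
    rw [hFd]
    dsimp only
    rw [e]
  have h2 := LAM_dc S K {t : G | t * v * t⁻¹ ∈ T ∧ SB M K θ (cjF t⁻¹ θ)}
    (fun g => LAZ_set hFUZ hS hz hv g) F hFc
  have hTK : (S ⊓ K : Subgroup G) = Cz S v := by
    ext y
    rw [Subgroup.mem_inf, mem_Cz, mem_Cz]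
    simp
  have hci : ∀ t ∈ S, ciT M D T θ (t * v * t⁻¹) = (Nat.card (Cz S v) : ℂ) / Nat.card (S ⊓ cz T : Subgroup G) := by
    intro t ht
    unfold ciT
    have e1 : Cz (TT M D θ) (t * v * t⁻¹) = cj t (Cz S v) := by
      rw [← cj_Cz, cj_self ht]
    rw [e1, card_cj]
  have h3 : ∑ᶠ t ∈ (S : Set G), F t =
      (T.relIndex D : ℂ) * ((Nat.card (Cz S v) : ℂ) / Nat.card (S ⊓ cz T : Subgroup G)) / Nat.card K *
        ∑ᶠ τ ∈ (S : Set G), lx T l (τ * v * τ⁻¹) := by
    rw [mul_finsum_mem' _ _ (Set.toFinite _)]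
    refine finsum_mem_congr rfl fun t ht => ?_
    rw [hFd]
    dsimp only
    rw [hci t ht]
  rw [h3, hTK] at h2
  have hc1 : (Nat.card (Cz S v) : ℂ) ≠ 0 := by exact_mod_cast Nat.card_pos.ne'
  have hc2 : (Nat.card K : ℂ) ≠ 0 := by exact_mod_cast Nat.card_pos.ne'
  have hc3 : (Nat.card (S ⊓ cz T : Subgroup G) : ℂ) ≠ 0 := by exact_mod_cast Nat.card_pos.ne'
  apply mul_left_cancel₀ hc1
  rw [h2]
  field_simp

/-- transport of the weight -/
theorem LAZ_conj (hCJB : CJB_stmt) {p : ℕ} {M : Ideal (integralClosure ℤ ℂ)} (hS : Setup p M)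
    {G : Type} [Group G] [Finite G] (D T : Subgroup G) (θ : G → ℂ) (l : T →* ℂˣ) (g u : G) (β : G → ℂ)
    (hβ : β ∈ BB M (Cz (⊤ : Subgroup G) u)) :
    LamZ M D T θ l u (rep M (Cz (⊤ : Subgroup G) u) β) =
      LamZ M D T θ l (g * u * g⁻¹) (rep M (Cz (⊤ : Subgroup G) (g * u * g⁻¹)) (cjF g β)) := by
  classical
  have h1 := (hCJB p M hS G g (Cz (⊤ : Subgroup G) u) β).2.1 hβ
  set v := g * u * g⁻¹ with hvd
  have hKv : Cz (⊤ : Subgroup G) v = cj g (Cz (⊤ : Subgroup G) u) := by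
    rw [hvd, ← cj_Cz, cj_top]
  have hcard : (Nat.card (Cz (⊤ : Subgroup G) u) : ℂ) = Nat.card (Cz (⊤ : Subgroup G) v) := by
    rw [hKv, card_cj]
  have hK1 : SB M (Cz (⊤ : Subgroup G) v) (rep M (Cz (⊤ : Subgroup G) v) (cjF g β))
      (cjF g (rep M (Cz (⊤ : Subgroup G) u) β)) := by
    rw [hKv]
    exact h1
  set η := rep M (Cz (⊤ : Subgroup G) u) β with hη
  set η' := rep M (Cz (⊤ : Subgroup G) v) (cjF g β) with hη'
  unfold LamZ
  rw [finsum_mem_def, finsum_mem_def]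
  rw [← finsum_comp_equiv (Equiv.mulRight g)]
  refine finsum_congr fun t => ?_
  rw [Set.indicator_apply, Set.indicator_apply]
  have e1 : (Equiv.mulRight g) t = t * g := rfl
  rw [e1]
  have e2 : t * g * u * (t * g)⁻¹ = t * v * t⁻¹ := by rw [hvd]; group
  refine if_congr ?_ ?_ rfl
  · have e3 : funMap (MulAut.conj g) (cjF (t * g)⁻¹ θ) = cjF t⁻¹ θ := by
      change funMap (MulAut.conj g) (funMap (MulAut.conj (t * g)⁻¹) θ) = funMap (MulAut.conj t⁻¹) θ
      rw [← funMap_mul]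
      congr 2
      group
    have e4 : funMap (MulAut.conj g⁻¹) (cjF t⁻¹ θ) = cjF (t * g)⁻¹ θ := by
      change funMap (MulAut.conj g⁻¹) (funMap (MulAut.conj t⁻¹) θ) = funMap (MulAut.conj (t * g)⁻¹) θ
      rw [← funMap_mul, mul_inv_rev]
    have e5 : funMap (MulAut.conj g⁻¹) (cjF g η) = η := by
      change funMap (MulAut.conj g⁻¹) (funMap (MulAut.conj g) η) = η
      rw [← funMap_mul, inv_mul_cancel, funMap_one']
    rw [Set.mem_ofPred_eq, Set.mem_ofPred_eq]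
    constructor
    · intro h
      have h6 := SB_conj h g
      rw [← hKv, e3] at h6
      exact hK1.trans h6
    · intro h
      have h6 := SB_conj (hK1.symm.trans h) g⁻¹
      rw [e4, e5, hKv, cj_inv_cj] at h6
      exact h6
  · rw [e2, hcard]

theorem LAZ_zpow {G : Type} [Group G] (g u : G) : cjS g (Subgroup.zpowers u) = Subgroup.zpowers (g * u * g⁻¹) :=
  MonoidHom.map_zpowers (MulAut.conj g).toMonoidHom u

/-- **LAZ** -/
theorem LAZ (hCNZ : CNZ_stmt) (hUQT : UQT_stmt) (hCJB : CJB_stmt) (hNSB : NSB_stmt) (hFUZ : FUZ_stmt)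
    (hREP : REP_stmt) : LAZ_stmt := by
  classical
  intro p M hS G _ _ D T x θ χ hz l Q f hQ
  have hth := hz.rt.th
  obtain ⟨-, hQ2, -, -, -⟩ := hUQT p M hS G Q f hQ
  have hzQ : ∀ u ∈ Q, Subgroup.zpowers u ≤ Q := fun u hu => by rwa [Subgroup.zpowers_le]
  have hβ : ∀ u ∈ Q, un p M Q f (Subgroup.zpowers u) ∈ BB M (Cz (⊤ : Subgroup G) u) := fun u hu => by
    rw [← cz_zp]
    exact (hQ2 _ (hzQ u hu)).1.bb
  have hpin : ∀ u ∈ Q, Pin p M (Subgroup.zpowers u) (un p M Q f (Subgroup.zpowers u)) Q f := fun u hu =>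
    (hQ2 _ (hzQ u hu)).2
  constructor
  · intro hSB
    have hch : SB M (⊤ : Subgroup G) (rep M (cz Q) f) χ := hSB.trans ((SB_top_iff hS).2 hz.rt.ind)
    obtain ⟨g, hg⟩ := hCNZ p M hS G D x θ χ hz.rt Q f hQ hch
    set eθ := eS (cz D) (Bl M (cz D) θ) with heθ
    have hD : Pai p M D eθ := ⟨hz.rt.dfa.pgrp, ⟨θ, hth, rfl⟩⟩
    obtain ⟨hD1, -, hD3, hD4, -⟩ := hUQT p M hS G D eθ hD
    refine ⟨g, (hD4 _ _ hg).1, fun u hu => ?_⟩
    set β := un p M Q f (Subgroup.zpowers u) with hβd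
    set v := g * u * g⁻¹ with hvd
    have hpv : Pin p M (Subgroup.zpowers v) (cjF g β) D eθ := by
      have h1 := ((hCJB p M hS G g (cz (Subgroup.zpowers u)) β).2.2.2.2 (Subgroup.zpowers u) Q f).2.2.1 (hpin u hu)
      rw [LAZ_zpow] at h1
      exact Relation.ReflTransGen.trans h1 hg
    obtain ⟨hvD', hβ'⟩ := hD4 _ _ hpv
    have hvD : v ∈ D := hvD' (Subgroup.mem_zpowers v)
    unfold LamP
    rw [← hβd, LAZ_conj hCJB hS D T θ l g u β (hβ u hu), ← hvd]
    by_cases hvT : v ∈ T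
    · -- the main case
      have hDK : D ≤ Cz (⊤ : Subgroup G) v := by
        intro y hy
        rw [mem_Cz]
        exact ⟨Subgroup.mem_top y, ((Subgroup.mem_centralizer_iff.1 (hz.tcz hvT)) y hy).symm⟩
      have hcK : cz D ≤ Cz (⊤ : Subgroup G) v := by
        intro c hc
        rw [mem_Cz]
        exact ⟨Subgroup.mem_top c, (Subgroup.mem_centralizer_iff.1 hc) v hvD⟩
      have hDn : D ≤ nz (Subgroup.zpowers v) := by
        intro y hy
        have hyv : y * v = v * y := (Subgroup.mem_centralizer_iff.1 (hz.tcz hvT)) y hy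
        rw [Subgroup.mem_normalizer_iff]
        have hcomm : ∀ n : ℤ, y * v ^ n = v ^ n * y := fun n => (Commute.zpow_right hyv n : Commute y (v ^ n))
        intro w
        constructor
        · rintro ⟨n, rfl⟩
          refine ⟨n, ?_⟩
          show v ^ n = y * v ^ n * y⁻¹
          rw [hcomm n]
          group
        · rintro ⟨n, hn⟩
          have hn' : v ^ n = y * w * y⁻¹ := hn
          refine ⟨n, ?_⟩
          show v ^ n = w
          have h2 : w = y⁻¹ * v ^ n * y := by rw [hn']; group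
          rw [h2, mul_assoc, ← hcomm n]
          group
      have hnin : Nin p M (Subgroup.zpowers v) (cjF g β) D eθ := by
        have h1 := hD3 (Subgroup.zpowers v) D hvD' le_rfl hDn
        rw [hD1, ← hβ'] at h1
        exact h1
      have hczv : cz (Subgroup.zpowers v) = Cz (⊤ : Subgroup G) v := cz_zp v
      have h2 : SB M (Cz (⊤ : Subgroup G) v) (rep M (cz D) eθ) (rep M (Cz (⊤ : Subgroup G) v) (cjF g β)) := by
        have h3 := (hNSB p M hS G (Subgroup.zpowers v) D (cjF g β) eθ).1 hnin (Cz (⊤ : Subgroup G) v) hDK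
          (by rw [hczv])
        rw [hczv] at h3
        exact h3
      have h4 : SB M (cz D) (rep M (cz D) eθ) θ := by
        obtain ⟨-, r2, r3, -, -⟩ := hREP p M hS G (cz D)
        obtain ⟨r4, r5⟩ := r2 eθ hD.bb
        exact (r3 _ r4 θ hth).1 r5
      have h5 : SB M (Cz (⊤ : Subgroup G) v) (rep M (cz D) eθ) θ := by
        refine TRNb hcK (fun y hy => ?_) (fun y hy => IrrOn_zero hth hy) h4
        exact IrrOn_zero ((hREP p M hS G (cz D)).2.1 eθ hD.bb).1 hy
      have h6 : SB M (Cz (⊤ : Subgroup G) v) θ (rep M (Cz (⊤ : Subgroup G) v) (cjF g β)) := h5.symm.trans h2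
      rw [← LAZ_in hFUZ hS hz l hvT]
      unfold LamZ
      have h7 : {t : G | SB M (Cz (⊤ : Subgroup G) v) (rep M (Cz (⊤ : Subgroup G) v) (cjF g β)) (cjF t⁻¹ θ)} =
          {t : G | SB M (Cz (⊤ : Subgroup G) v) θ (cjF t⁻¹ θ)} := by
        ext t
        rw [Set.mem_ofPred_eq, Set.mem_ofPred_eq]
        exact ⟨fun h => h6.trans h, fun h => h6.symm.trans h⟩
      rw [h7]
    · -- everything vanishes
      have h1 : LamZ M D T θ l v (rep M (Cz (⊤ : Subgroup G) v) (cjF g β)) = 0 := by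
        unfold LamZ
        refine finsum_mem_eq_zero_of_forall_eq_zero fun t ht => ?_
        rw [Set.mem_ofPred_eq] at ht
        by_cases htT : t * v * t⁻¹ ∈ T
        · exact absurd (hz.cl v hvD (cjF g β) hpv t htT ht) hvT
        · rw [LAZ_lx0 htT, mul_zero]
      have h2 : ∑ᶠ τ ∈ (TT M D θ : Set G), lx T l (τ * v * τ⁻¹) = 0 := by
        refine finsum_mem_eq_zero_of_forall_eq_zero fun τ hτ => ?_
        apply LAZ_lx0
        intro h
        apply hvT
        have h3 := hz.tnz τ⁻¹ ((TT M D θ).inv_mem hτ).1 _ h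
        have h4 : τ⁻¹ * (τ * v * τ⁻¹) * τ⁻¹⁻¹ = v := by group
        rwa [h4] at h3
      rw [h1, h2, mul_zero, zero_div]
  · intro hn u hu
    unfold LamP LamZ
    refine finsum_mem_eq_zero_of_forall_eq_zero fun t ht => ?_
    rw [Set.mem_ofPred_eq] at ht
    by_cases htT : t * u * t⁻¹ ∈ T
    · exfalso
      apply hn
      set β := un p M Q f (Subgroup.zpowers u) with hβd
      have hrep : rep M (Cz (⊤ : Subgroup G) u) β ∈ IrrOn (Cz (⊤ : Subgroup G) u) :=
        ((hREP p M hS G (Cz (⊤ : Subgroup G) u)).2.1 β (hβ u hu)).1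
      have h1 : SB M (⊤ : Subgroup G) (rep M (Cz (⊤ : Subgroup G) u) β) (cjF t⁻¹ θ) := by
        refine TRNb le_top (fun y hy => IrrOn_zero hrep hy) ?_ ht
        intro y hy
        refine funMap_zero (fun z hz' => IrrOn_zero hth hz') t⁻¹ y fun h => hy ?_
        rw [mem_cj, inv_inv] at h
        rw [mem_Cz]
        refine ⟨Subgroup.mem_top y, ?_⟩
        have h2 := (Subgroup.mem_centralizer_iff.1 h) _ (hz.tle htT)
        calc u * y = t⁻¹ * (t * u * t⁻¹ * (t * y * t⁻¹)) * t := by group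
          _ = t⁻¹ * (t * y * t⁻¹ * (t * u * t⁻¹)) * t := by rw [h2]
          _ = y * u := by group
      have h2 := ((hNSB p M hS G (Subgroup.zpowers u) Q β f).2.2 (hpin u hu)).2 (⊤ : Subgroup G) le_top le_top
      rw [cz_zp] at h2
      exact h2.trans (h1.trans (SB_inner (Subgroup.mem_top _) θ))
    · rw [LAZ_lx0 htT, mul_zero]

end Pool.Agent.GB
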