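import Mathlib
import Pool.Agent.helper70.GB.Defs

/-!
# Project gb: `ℤ`-graded commutative rings

`Grd D` is a `ℤ`-grading of the commutative ring `D` (a structure with the homogeneous components
`A j` and the projections `pr j`).  `DGe`, `D0`: the subrings of elements of degree `≥ 0`, of
degree `0`; `Sigma`: the submonoid `1 + D_{<0}`; `MM`: the ideal generated by the homogeneous
non-units; `Loc`: the ring `D_0` is local.
-/

namespace GB

/-- a `ℤ`-grading of a commutative ring -/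
structure Grd (D : Type*) [CommRing D] where
  A : ℤ → AddSubgroup D
  pr : ℤ → D →+ D
  one_mem : (1 : D) ∈ A 0
  mul_mem : ∀ {i j : ℤ} {x y : D}, x ∈ A i → y ∈ A j → x * y ∈ A (i + j)
  pr_mem : ∀ (j : ℤ) (x : D), pr j x ∈ A j
  pr_same : ∀ {j : ℤ} {x : D}, x ∈ A j → pr j x = x
  pr_ne : ∀ {i j : ℤ} {x : D}, x ∈ A i → i ≠ j → pr j x = 0
  exists_sum : ∀ x : D, ∃ n : ℕ, x = ∑ j ∈ Finset.Icc (-(n : ℤ)) n, pr j x

namespace Grd

variable {D : Type*} [CommRing D] (G : Grd D)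

theorem pr_pr (i j : ℤ) (x : D) : G.pr i (G.pr j x) = if i = j then G.pr j x else 0 := by
  split_ifs with h
  · subst h
    exact G.pr_same (G.pr_mem _ _)
  · exact G.pr_ne (G.pr_mem _ _) (Ne.symm h)

theorem exists_bound (x : D) : ∃ n : ℕ, ∀ j : ℤ, j ∉ Finset.Icc (-(n : ℤ)) n → G.pr j x = 0 := by
  obtain ⟨n, hn⟩ := G.exists_sum x
  refine ⟨n, fun j hj => ?_⟩
  rw [hn, map_sum]
  refine Finset.sum_eq_zero (fun i hi => ?_)
  rw [pr_pr, if_neg]
  rintro rfl
  exact hj hi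

theorem eq_sum (x : D) (s : Finset ℤ) (hs : ∀ j, j ∉ s → G.pr j x = 0) :
    x = ∑ j ∈ s, G.pr j x := by
  obtain ⟨n, hn⟩ := G.exists_sum x
  obtain ⟨m, hm⟩ := G.exists_bound x
  have h1 : ∀ t : Finset ℤ, (∀ j, j ∉ t → G.pr j x = 0) →
      ∑ j ∈ t, G.pr j x = ∑ j ∈ t ∪ s, G.pr j x := by
    intro t ht
    refine Finset.sum_subset Finset.subset_union_left (fun j _ hj => ht j hj)
  have h2 : ∀ t : Finset ℤ, (∀ j, j ∉ t → G.pr j x = 0) →
      ∑ j ∈ s, G.pr j x = ∑ j ∈ t ∪ s, G.pr j x := by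
    intro t _
    refine Finset.sum_subset Finset.subset_union_right (fun j _ hj => hs j hj)
  have h3 : ∀ j, j ∉ Finset.Icc (-(n : ℤ)) n → G.pr j x = 0 := by
    intro j hj
    rw [hn, map_sum]
    refine Finset.sum_eq_zero (fun i hi => ?_)
    rw [pr_pr, if_neg]
    rintro rfl
    exact hj hi
  rw [h2 _ h3, ← h1 _ h3]
  exact hn

theorem ext_pr {x y : D} (h : ∀ j, G.pr j x = G.pr j y) : x = y := by
  obtain ⟨n, hn⟩ := G.exists_bound x
  rw [G.eq_sum x _ hn, G.eq_sum y (Finset.Icc (-(n : ℤ)) n) (fun j hj => by rw [← h, hn j hj])]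
  exact Finset.sum_congr rfl (fun j _ => h j)

/-- components of a product with a homogeneous factor -/
theorem pr_mul_of_mem {i : ℤ} {x : D} (hx : x ∈ G.A i) (k : ℤ) (y : D) :
    G.pr k (x * y) = x * G.pr (k - i) y := by
  obtain ⟨n, hn⟩ := G.exists_bound y
  set s := insert (k - i) (Finset.Icc (-(n : ℤ)) n) with hs
  have h1 : y = ∑ j ∈ s, G.pr j y := G.eq_sum y s (fun j hj => hn j (fun h => hj (by
    rw [hs]; exact Finset.mem_insert_of_mem h)))
  have h2 : x * y = ∑ j ∈ s, x * G.pr j y := by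
    conv_lhs => rw [h1]
    rw [Finset.mul_sum]
  rw [h2, map_sum, Finset.sum_eq_single (k - i)]
  · exact G.pr_same (by
      have := G.mul_mem hx (G.pr_mem (k - i) y)
      rwa [add_sub_cancel] at this)
  · intro j _ hj
    refine G.pr_ne (G.mul_mem hx (G.pr_mem j y)) (fun h => hj ?_)
    rw [← h]; ring
  · intro h
    exact absurd (Finset.mem_insert_self _ _) h

/-- components of a product -/
theorem pr_mul (k : ℤ) (x y : D) (s : Finset ℤ) (hs : ∀ j, j ∉ s → G.pr j x = 0) :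
    G.pr k (x * y) = ∑ i ∈ s, G.pr i x * G.pr (k - i) y := by
  conv_lhs => rw [G.eq_sum x s hs]
  rw [Finset.sum_mul, map_sum]
  exact Finset.sum_congr rfl (fun i _ => G.pr_mul_of_mem (G.pr_mem i x) k y)

/-- elements all of whose components have degree at most `h` -/
def Le (h : ℤ) : AddSubgroup D where
  carrier := {x | ∀ j, h < j → G.pr j x = 0}
  zero_mem' := fun j _ => map_zero _
  add_mem' := fun {a b} ha hb j hj => by rw [map_add, ha j hj, hb j hj, add_zero]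
  neg_mem' := fun {a} ha j hj => by rw [map_neg, ha j hj, neg_zero]

/-- elements all of whose components have degree greater than `h` -/
def Gt (h : ℤ) : AddSubgroup D where
  carrier := {x | ∀ j, j ≤ h → G.pr j x = 0}
  zero_mem' := fun j _ => map_zero _
  add_mem' := fun {a b} ha hb j hj => by rw [map_add, ha j hj, hb j hj, add_zero]
  neg_mem' := fun {a} ha j hj => by rw [map_neg, ha j hj, neg_zero]

theorem mem_Le {h : ℤ} {x : D} : x ∈ G.Le h ↔ ∀ j, h < j → G.pr j x = 0 := Iff.rfl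

theorem mem_Gt {h : ℤ} {x : D} : x ∈ G.Gt h ↔ ∀ j, j ≤ h → G.pr j x = 0 := Iff.rfl

theorem A_le_Le {j h : ℤ} (hj : j ≤ h) : G.A j ≤ G.Le h := fun _ hx _ hk =>
  G.pr_ne hx (by omega)

theorem A_le_Gt {j h : ℤ} (hj : h < j) : G.A j ≤ G.Gt h := fun _ hx _ hk =>
  G.pr_ne hx (by omega)

theorem Le_mono {h k : ℤ} (hk : h ≤ k) : G.Le h ≤ G.Le k := fun _ hx j hj => hx j (by omega)

theorem Gt_anti {h k : ℤ} (hk : h ≤ k) : G.Gt k ≤ G.Gt h := fun _ hx j hj => hx j (by omega)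

theorem Le_mul {h k : ℤ} {x y : D} (hx : x ∈ G.Le h) (hy : y ∈ G.Le k) : x * y ∈ G.Le (h + k) := by
  intro l hl
  obtain ⟨n, hn⟩ := G.exists_bound x
  rw [G.pr_mul l x y _ hn]
  refine Finset.sum_eq_zero (fun i _ => ?_)
  by_cases hi : h < i
  · rw [hx i hi, zero_mul]
  · rw [hy (l - i) (by omega), mul_zero]

theorem Gt_mul {h k : ℤ} {x y : D} (hx : x ∈ G.Gt h) (hy : y ∈ G.Gt k) :
    x * y ∈ G.Gt (h + k + 1) := by
  intro l hl
  obtain ⟨n, hn⟩ := G.exists_bound x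
  rw [G.pr_mul l x y _ hn]
  refine Finset.sum_eq_zero (fun i _ => ?_)
  by_cases hi : i ≤ h
  · rw [hx i hi, zero_mul]
  · rw [hy (l - i) (by omega), mul_zero]

theorem A_mul_Gt {i h : ℤ} {x y : D} (hx : x ∈ G.A i) (hy : y ∈ G.Gt h) : x * y ∈ G.Gt (i + h) := by
  intro l hl
  rw [G.pr_mul_of_mem hx, hy (l - i) (by omega), mul_zero]

theorem exists_Le (x : D) : ∃ n : ℕ, x ∈ G.Le n := by
  obtain ⟨n, hn⟩ := G.exists_bound x
  exact ⟨n, fun j hj => hn j (by rw [Finset.mem_Icc]; omega)⟩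

theorem eq_zero_of_Le {x : D} (h : ∀ k : ℤ, x ∈ G.Le k) : x = 0 :=
  G.ext_pr (fun j => by rw [h (j - 1) j (by omega), map_zero])

theorem one_mem_Le {h : ℤ} (hh : 0 ≤ h) : (1 : D) ∈ G.Le h := G.A_le_Le hh G.one_mem

/-- the ring `D_0` -/
def D0 : Subring D where
  carrier := {x | x ∈ G.A 0}
  zero_mem' := (G.A 0).zero_mem
  one_mem' := G.one_mem
  add_mem' := (G.A 0).add_mem
  neg_mem' := (G.A 0).neg_mem
  mul_mem' := fun {a b} ha hb => by
    have := G.mul_mem ha hb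
    rwa [add_zero] at this

theorem mem_D0 {x : D} : x ∈ G.D0 ↔ x ∈ G.A 0 := Iff.rfl

/-- the ring `D_{≥0}` -/
def DGe : Subring D where
  carrier := {x | ∀ j, j < 0 → G.pr j x = 0}
  zero_mem' := fun j _ => map_zero _
  one_mem' := fun j hj => G.pr_ne G.one_mem (by omega)
  add_mem' := fun {a b} ha hb j hj => by rw [map_add, ha j hj, hb j hj, add_zero]
  neg_mem' := fun {a} ha j hj => by rw [map_neg, ha j hj, neg_zero]
  mul_mem' := fun {a b} ha hb => by
    have ha' : a ∈ G.Gt (-1) := fun j hj => ha j (by omega)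
    have hb' : b ∈ G.Gt (-1) := fun j hj => hb j (by omega)
    intro j hj
    exact G.Gt_mul ha' hb' j (by omega)

theorem mem_DGe {x : D} : x ∈ G.DGe ↔ ∀ j, j < 0 → G.pr j x = 0 := Iff.rfl

theorem mem_DGe_iff_Gt {x : D} : x ∈ G.DGe ↔ x ∈ G.Gt (-1) :=
  ⟨fun h j hj => h j (by omega), fun h j hj => h j (by omega)⟩

theorem D0_le_DGe : G.D0 ≤ G.DGe := fun _ hx _ hj => G.pr_ne hx (by omega)

theorem A_le_DGe {j : ℤ} (hj : 0 ≤ j) {x : D} (hx : x ∈ G.A j) : x ∈ G.DGe := fun _ hk =>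
  G.pr_ne hx (by omega)

/-- the projection `D_{≥0} → D_0`, a ring homomorphism -/
def pi0 : G.DGe →+* G.D0 where
  toFun x := ⟨G.pr 0 x, G.pr_mem 0 x⟩
  map_zero' := Subtype.ext (by simp)
  map_one' := Subtype.ext (by simpa using G.pr_same G.one_mem)
  map_add' x y := Subtype.ext (by simp)
  map_mul' x y := Subtype.ext (by
    obtain ⟨n, hn⟩ := G.exists_bound (x : D)
    show G.pr 0 ((x : D) * (y : D)) = G.pr 0 (x : D) * G.pr 0 (y : D)
    rw [G.pr_mul 0 (x : D) (y : D) (insert 0 (Finset.Icc (-(n : ℤ)) n))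
      (fun j hj => hn j (fun h => hj (Finset.mem_insert_of_mem h))),
      Finset.sum_eq_single (0 : ℤ)]
    · rw [sub_zero]
    · intro i _ hi
      rcases lt_or_gt_of_ne hi with h | h
      · rw [x.2 i h, zero_mul]
      · rw [y.2 (0 - i) (by omega), mul_zero]
    · intro h
      exact absurd (Finset.mem_insert_self _ _) h)

theorem coe_pi0 (x : G.DGe) : ((G.pi0 x : G.D0) : D) = G.pr 0 x := rfl

/-- the submonoid `1 + D_{<0}` -/
def Sigma : Submonoid D where
  carrier := {x | x - 1 ∈ G.Le (-1)}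
  one_mem' := by
    show (1 : D) - 1 ∈ G.Le (-1)
    rw [sub_self]
    exact (G.Le (-1)).zero_mem
  mul_mem' := fun {a b} ha hb => by
    have e : a * b - 1 = (a - 1) * (b - 1) + (a - 1) + (b - 1) := by ring
    show a * b - 1 ∈ G.Le (-1)
    rw [e]
    exact (G.Le (-1)).add_mem ((G.Le (-1)).add_mem
      (G.Le_mono (by norm_num) (G.Le_mul ha hb)) ha) hb

theorem mem_Sigma {x : D} : x ∈ G.Sigma ↔ x - 1 ∈ G.Le (-1) := Iff.rfl

/-- the ring `D_0` is local (and not zero) -/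
def Loc : Prop := (1 : D) ≠ 0 ∧ ∀ x ∈ G.A 0, (∃ y ∈ G.A 0, x * y = 1) ∨
  (∃ y ∈ G.A 0, (1 - x) * y = 1)

/-- the ideal of `D` generated by the homogeneous non-units -/
def MM : Ideal D := Ideal.span {x | (∃ j, x ∈ G.A j) ∧ ¬ IsUnit x}

end Grd

end GB

namespace GB

open Matrix

/-- statement of D5 for a graded ring with `D_0` local -/
def Grd.D5_stmt : Prop := ∀ {D : Type*} [CommRing D] (G : Grd D) (_ : G.Loc) {ι : Type*}
  [Fintype ι] [DecidableEq ι] (g g' : Matrix ι ι (Localization G.Sigma)) (_ : g * g' = 1)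
  (_ : ∀ i j, (g - 1) i j ∈ G.MM.map (algebraMap D (Localization G.Sigma))),
  ∃ y : Matrix ι ι G.DGe, IsUnit y.det ∧ ∀ (i : ι) (v : ι → G.DGe),
    (∀ j, algebraMap D (Localization G.Sigma) (v j) = g i j) → ∀ j, ((v ᵥ* y) j : D) ∈ G.A 0

/-- statement of D6 (Theorem H for `D_0` local) -/
def Grd.D6_stmt : Prop := ∀ {D : Type*} [CommRing D] (G : Grd D) (_ : G.Loc) {ι : Type*}
  [Fintype ι] [DecidableEq ι] [Nontrivial ι] (v : ι → G.DGe) (_ : Um v)
  (_ : Comp (fun i => algebraMap D (Localization G.Sigma) (v i))), Comp v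

/-- statement of Theorem H -/
def Grd.H_stmt : Prop := ∀ {D : Type*} [CommRing D] (G : Grd D) {ι : Type*}
  [Fintype ι] [DecidableEq ι] [Nontrivial ι] (v : ι → G.DGe) (_ : Um v)
  (_ : Comp (fun i => algebraMap D (Localization G.Sigma) (v i)))
  (_ : Comp (fun i => G.pi0 (v i))), Comp v

end GB
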