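import Mathlib
import Pool.Agent.helper89.GB.Grd

/-!
# Project gb: localization of a graded ring at a submonoid of `D_0`.
-/

set_option linter.unusedSectionVars false

namespace GB

namespace Grd

variable {D : Type*} [CommRing D] (G : Grd D) (S : Submonoid D) (hS : ∀ s ∈ S, s ∈ G.A 0)
  (L : Type*) [CommRing L] [Algebra D L] [IsLocalization S L]

theorem pr_mul_zero {s : D} (hs : s ∈ G.A 0) (j : ℤ) (x : D) :
    G.pr j (x * s) = G.pr j x * s := by
  rw [mul_comm, G.pr_mul_of_mem hs, sub_zero, mul_comm]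

/-- the component of an element of the localization, as a function -/
noncomputable def prLfun (j : ℤ) (x : L) : L :=
  IsLocalization.mk' L (G.pr j (IsLocalization.sec S x).1) (IsLocalization.sec S x).2

include hS in
theorem prLfun_spec (j : ℤ) (x : L) (s a : D) (hs : s ∈ S)
    (h : x * algebraMap D L s = algebraMap D L a) :
    G.prLfun S L j x * algebraMap D L s = algebraMap D L (G.pr j a) := by
  have h0 := IsLocalization.sec_spec S x
  set a0 := (IsLocalization.sec S x).1 with ha0
  set s0 := (IsLocalization.sec S x).2 with hs0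
  have h1 : algebraMap D L (a0 * s) = algebraMap D L (a * s0) := by
    rw [map_mul, map_mul, ← h0, ← h]
    ring
  obtain ⟨c, hc⟩ := (IsLocalization.eq_iff_exists S L).1 h1
  have h2 : G.pr j a0 * s * c = G.pr j a * s0 * c := by
    have h3 := congrArg (G.pr j) hc
    rw [mul_comm (c : D), mul_comm (c : D), G.pr_mul_zero (hS _ c.2), G.pr_mul_zero (hS _ c.2),
      G.pr_mul_zero (hS _ hs), G.pr_mul_zero (hS _ s0.2)] at h3
    exact h3
  have h3 : algebraMap D L (G.pr j a0 * s) = algebraMap D L (G.pr j a * s0) :=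
    (IsLocalization.eq_iff_exists S L).2 ⟨c, by rw [mul_comm (c : D), mul_comm (c : D)]; exact h2⟩
  have h4 : G.prLfun S L j x * algebraMap D L s0 = algebraMap D L (G.pr j a0) :=
    IsLocalization.mk'_spec L _ s0
  have hu : IsUnit (algebraMap D L s0) := IsLocalization.map_units L s0
  refine hu.mul_right_cancel ?_
  calc G.prLfun S L j x * algebraMap D L s * algebraMap D L s0
      = (G.prLfun S L j x * algebraMap D L s0) * algebraMap D L s := by ring
    _ = algebraMap D L (G.pr j a) * algebraMap D L s0 := by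
        rw [h4, ← map_mul, h3, map_mul]

/-- the component of an element of the localization -/
noncomputable def prL (j : ℤ) : L →+ L where
  toFun := G.prLfun S L j
  map_zero' := by
    have := G.prLfun_spec S hS L j 0 1 0 S.one_mem (by simp)
    simpa using this
  map_add' := by
    intro x y
    obtain ⟨⟨a, s⟩, h1⟩ := IsLocalization.surj S x
    obtain ⟨⟨b, t⟩, h2⟩ := IsLocalization.surj S y
    simp only at h1 h2
    have h3 := G.prLfun_spec S hS L j x s a s.2 h1
    have h4 := G.prLfun_spec S hS L j y t b t.2 h2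
    have h5 := G.prLfun_spec S hS L j (x + y) (s * t) (a * t + b * s) (S.mul_mem s.2 t.2) (by
      rw [map_mul, map_add, map_mul, map_mul, ← h1, ← h2]; ring)
    have hu : IsUnit (algebraMap D L (s * t)) :=
      IsLocalization.map_units L (⟨s * t, S.mul_mem s.2 t.2⟩ : S)
    refine hu.mul_right_cancel ?_
    rw [h5, map_add, G.pr_mul_zero (hS _ s.2), G.pr_mul_zero (hS _ t.2), map_add, map_mul, map_mul,
      map_mul, ← h3, ← h4]
    ring

theorem prL_spec (j : ℤ) (x : L) (s a : D) (hs : s ∈ S)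
    (h : x * algebraMap D L s = algebraMap D L a) :
    G.prL S hS L j x * algebraMap D L s = algebraMap D L (G.pr j a) :=
  G.prLfun_spec S hS L j x s a hs h

theorem prL_algebraMap (j : ℤ) (a : D) :
    G.prL S hS L j (algebraMap D L a) = algebraMap D L (G.pr j a) := by
  have := G.prL_spec S hS L j (algebraMap D L a) 1 a S.one_mem (by simp)
  simpa using this

/-- **the grading of the localization** of a graded ring at a submonoid of `D_0` -/
noncomputable def locGrd : Grd L where
  A j :=
    { carrier := {x | ∃ s ∈ S, ∃ a ∈ G.A j, x * algebraMap D L s = algebraMap D L a}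
      zero_mem' := ⟨1, S.one_mem, 0, (G.A j).zero_mem, by simp⟩
      add_mem' := by
        rintro x y ⟨s, hs, a, ha, h1⟩ ⟨t, ht, b, hb, h2⟩
        refine ⟨s * t, S.mul_mem hs ht, a * t + b * s, (G.A j).add_mem ?_ ?_, ?_⟩
        · have := G.mul_mem ha (hS t ht)
          rwa [add_zero] at this
        · have := G.mul_mem hb (hS s hs)
          rwa [add_zero] at this
        · rw [map_mul, map_add, map_mul, map_mul, ← h1, ← h2]; ring
      neg_mem' := by
        rintro x ⟨s, hs, a, ha, h1⟩
        exact ⟨s, hs, -a, (G.A j).neg_mem ha, by rw [neg_mul, h1, map_neg]⟩ }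
  pr := G.prL S hS L
  one_mem := ⟨1, S.one_mem, 1, G.one_mem, by simp⟩
  mul_mem := by
    rintro i j x y ⟨s, hs, a, ha, h1⟩ ⟨t, ht, b, hb, h2⟩
    refine ⟨s * t, S.mul_mem hs ht, a * b, G.mul_mem ha hb, ?_⟩
    rw [map_mul, map_mul, ← h1, ← h2]; ring
  pr_mem := by
    intro j x
    obtain ⟨⟨a, s⟩, h1⟩ := IsLocalization.surj S x
    exact ⟨s, s.2, G.pr j a, G.pr_mem j a, G.prL_spec S hS L j x s a s.2 h1⟩
  pr_same := by
    rintro j x ⟨s, hs, a, ha, h1⟩
    have h2 := G.prL_spec S hS L j x s a hs h1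
    rw [G.pr_same ha, ← h1] at h2
    have hu : IsUnit (algebraMap D L s) := IsLocalization.map_units L (⟨s, hs⟩ : S)
    exact hu.mul_right_cancel h2
  pr_ne := by
    rintro i j x ⟨s, hs, a, ha, h1⟩ hij
    have h2 := G.prL_spec S hS L j x s a hs h1
    rw [G.pr_ne ha hij, map_zero] at h2
    have hu : IsUnit (algebraMap D L s) := IsLocalization.map_units L (⟨s, hs⟩ : S)
    exact hu.mul_right_cancel (by rw [h2, zero_mul])
  exists_sum := by
    intro x
    obtain ⟨⟨a, s⟩, h1⟩ := IsLocalization.surj S x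
    obtain ⟨n, hn⟩ := G.exists_sum a
    refine ⟨n, ?_⟩
    have hu : IsUnit (algebraMap D L s) := IsLocalization.map_units L s
    refine hu.mul_right_cancel ?_
    rw [Finset.sum_mul]
    simp only at h1
    rw [h1]
    conv_lhs => rw [hn]
    rw [map_sum]
    exact Finset.sum_congr rfl (fun j _ => (G.prL_spec S hS L j x s a s.2 h1).symm)

theorem mem_locGrd_A {j : ℤ} {x : L} : x ∈ (G.locGrd S hS L).A j ↔
    ∃ s ∈ S, ∃ a ∈ G.A j, x * algebraMap D L s = algebraMap D L a := Iff.rfl

theorem locGrd_pr (j : ℤ) (x : L) : (G.locGrd S hS L).pr j x = G.prL S hS L j x := rfl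

theorem locGrd_pr_algebraMap (j : ℤ) (a : D) :
    (G.locGrd S hS L).pr j (algebraMap D L a) = algebraMap D L (G.pr j a) :=
  G.prL_algebraMap S hS L j a

/-- the map `D_{≥0} → L_{≥0}` -/
noncomputable def geMap : G.DGe →+* (G.locGrd S hS L).DGe :=
  ((algebraMap D L).comp G.DGe.subtype).codRestrict _ (fun x j hj => by
    rw [RingHom.comp_apply, locGrd_pr_algebraMap, Subring.subtype_apply, x.2 j hj, map_zero])

theorem coe_geMap (x : G.DGe) : ((G.geMap S hS L x : (G.locGrd S hS L).DGe) : L) =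
    algebraMap D L x := rfl

/-- the map `Σ⁻¹ D → Σ⁻¹ L` -/
theorem sigma_le : G.Sigma ≤ (G.locGrd S hS L).Sigma.comap (algebraMap D L) := by
  intro x hx j hj
  rw [← map_one (algebraMap D L), ← map_sub, locGrd_pr_algebraMap, hx j hj, map_zero]

/-- `L_{≥0}` is the localization of `D_{≥0}` -/
theorem isLocalization_ge (W : Submonoid G.DGe) (hW : ∀ x : G.DGe, x ∈ W ↔ (x : D) ∈ S) :
    @IsLocalization G.DGe _ W (G.locGrd S hS L).DGe _ (G.geMap S hS L).toAlgebra := by
  let _ : Algebra G.DGe (G.locGrd S hS L).DGe := (G.geMap S hS L).toAlgebra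
  have halg : ∀ x : G.DGe, ((algebraMap G.DGe (G.locGrd S hS L).DGe x :
    (G.locGrd S hS L).DGe) : L) = algebraMap D L x := fun x => rfl
  refine ⟨?_, ?_, ?_⟩
  · rintro ⟨y, hy⟩
    have hy' : (y : D) ∈ S := (hW y).1 hy
    obtain ⟨u, hu⟩ := (IsLocalization.map_units L (⟨y, hy'⟩ : S)).exists_right_inv
    simp only at hu
    have hu' : u ∈ (G.locGrd S hS L).A 0 := ⟨y, hy', 1, G.one_mem, by rw [mul_comm, hu, map_one]⟩
    refine IsUnit.of_mul_eq_one (⟨u, (G.locGrd S hS L).A_le_DGe le_rfl hu'⟩) ?_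
    exact Subtype.ext hu
  · rintro ⟨z, hz⟩
    obtain ⟨⟨a, s⟩, h1⟩ := IsLocalization.surj S z
    simp only at h1
    -- kill the negative components of `a`
    have h2 : ∀ j : ℤ, ∃ c : S, j < 0 → (c : D) * G.pr j a = 0 := by
      intro j
      by_cases hj : j < 0
      · have h3 := G.prL_spec S hS L j z s a s.2 h1
        have h4 : G.prL S hS L j z = 0 := hz j hj
        rw [h4, zero_mul] at h3
        obtain ⟨c, hc⟩ := (IsLocalization.map_eq_zero_iff S L _).1 h3.symm
        exact ⟨c, fun _ => hc⟩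
      · exact ⟨1, fun h => absurd h hj⟩
    choose c hc using h2
    obtain ⟨n, hn⟩ := G.exists_bound a
    set e : S := ∏ j ∈ Finset.Icc (-(n : ℤ)) n, c j with he
    have h5 : a * (e : D) ∈ G.DGe := by
      intro j hj
      rw [G.pr_mul_zero (hS _ e.2)]
      by_cases hjn : j ∈ Finset.Icc (-(n : ℤ)) n
      · rw [he, ← Finset.mul_prod_erase _ _ hjn, Submonoid.coe_mul, ← mul_assoc,
          mul_comm (G.pr j a), hc j hj, zero_mul]
      · rw [hn j hjn, zero_mul]
    have h6 : ((s * e : S) : D) ∈ G.DGe := G.A_le_DGe le_rfl (hS _ (s * e).2)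
    refine ⟨(⟨a * e, h5⟩, ⟨⟨_, h6⟩, (hW _).2 (s * e).2⟩), ?_⟩
    refine Subtype.ext ?_
    show z * algebraMap D L ((s * e : S) : D) = algebraMap D L (a * e)
    rw [Submonoid.coe_mul, map_mul, map_mul, ← h1]
    ring
  · intro x y hxy
    have h1 : algebraMap D L (x : D) = algebraMap D L (y : D) := by
      rw [← halg x, ← halg y, hxy]
    obtain ⟨c, hc⟩ := (IsLocalization.eq_iff_exists S L).1 h1
    refine ⟨⟨⟨c, G.A_le_DGe le_rfl (hS _ c.2)⟩, (hW _).2 c.2⟩, ?_⟩
    exact Subtype.ext hc

end Grd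

end GB
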