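import Mathlib
import Pool.Agent.helper89.GB.Grd
import Pool.Agent.helper89.GB.GrdLoc
import Pool.Agent.helper89.GB.LG

/-!
# Project gb: D7, Theorem H (graded Horrocks theorem) from the case of local `D_0`.
-/

set_option linter.unusedSectionVars false

namespace GB

open Polynomial

universe u w

namespace Grd

variable {D : Type*} [CommRing D] (G : Grd D)

/-- `D_{≥0}` as an algebra over `D_0` -/
noncomputable instance algGe : Algebra G.D0 G.DGe := (Subring.inclusion G.D0_le_DGe).toAlgebra

theorem coe_algebraMap_ge (x : G.D0) : ((algebraMap G.D0 G.DGe x : G.DGe) : D) = x := rfl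

/-- the component of degree `k : ℕ` in `D_{≥0}` -/
def cmp (k : ℕ) (x : G.DGe) : G.DGe := ⟨G.pr k x, G.A_le_DGe (by omega) (G.pr_mem k x)⟩

theorem coe_cmp (k : ℕ) (x : G.DGe) : (G.cmp k x : D) = G.pr k x := rfl

/-- a bound for the degrees -/
noncomputable def bd (x : D) : ℕ := (G.exists_bound x).choose

theorem bd_spec (x : D) (j : ℤ) (hj : j ∉ Finset.Icc (-(G.bd x : ℤ)) (G.bd x)) : G.pr j x = 0 :=
  (G.exists_bound x).choose_spec j hj

/-- `x ↦ ∑ x_k X^k` as a function -/
noncomputable def psiFun (x : G.DGe) : G.DGe[X] :=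
  ∑ k ∈ Finset.range (G.bd x + 1), monomial k (G.cmp k x)

theorem coeff_psiFun (x : G.DGe) (k : ℕ) : (G.psiFun x).coeff k = G.cmp k x := by
  rw [psiFun, finsetSum_coeff]
  simp only [coeff_monomial]
  rw [Finset.sum_ite_eq']
  split_ifs with h
  · rfl
  · refine Subtype.ext ?_
    rw [coe_cmp, G.bd_spec]
    · rfl
    · rw [Finset.mem_Icc]
      rw [Finset.mem_range] at h
      omega

/-- the grading homomorphism `x ↦ ∑ x_k X^k` -/
noncomputable def psi : G.DGe →ₐ[G.D0] G.DGe[X] where
  toFun := G.psiFun
  map_zero' := by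
    ext k
    rw [coeff_psiFun, coe_cmp]
    simp
  map_one' := by
    ext k
    rw [coeff_psiFun, coe_cmp, coeff_one]
    split_ifs with h
    · subst h
      exact G.pr_same G.one_mem
    · exact G.pr_ne G.one_mem (by omega)
  map_add' x y := by
    ext k
    rw [coeff_add, coeff_psiFun, coeff_psiFun, coeff_psiFun]
    simp [coe_cmp]
  map_mul' x y := by
    ext k
    rw [coeff_psiFun, coeff_mul, coe_cmp]
    have h1 : ∀ p : ℕ × ℕ, (G.psiFun x).coeff p.1 * (G.psiFun y).coeff p.2 =
        G.cmp p.1 x * G.cmp p.2 y := fun p => by rw [coeff_psiFun, coeff_psiFun]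
    simp only [h1]
    rw [Finset.Nat.sum_antidiagonal_eq_sum_range_succ (fun i j => G.cmp i x * G.cmp j y) k]
    rw [AddSubmonoidClass.coe_finsetSum]
    simp only [Subring.coe_mul, coe_cmp]
    obtain ⟨n, hn⟩ := G.exists_bound (x : D)
    rw [G.pr_mul (k : ℤ) (x : D) (y : D) ((Finset.range (max n k + 1)).map Nat.castEmbedding)]
    · rw [Finset.sum_map]
      symm
      refine Finset.sum_subset_zero_on_sdiff (Finset.range_mono (by omega)) ?_ ?_
      · intro i hi
        rw [Finset.mem_sdiff, Finset.mem_range, Finset.mem_range] at hi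
        have h2 : G.pr ((k : ℤ) - (Nat.castEmbedding i : ℤ)) (y : D) = 0 := by
          refine y.2 _ ?_
          show (k : ℤ) - (i : ℤ) < 0
          omega
        rw [h2, mul_zero]
      · intro i hi
        rw [Finset.mem_range] at hi
        have h2 : ((k - i : ℕ) : ℤ) = (k : ℤ) - (Nat.castEmbedding i : ℤ) := by
          show ((k - i : ℕ) : ℤ) = (k : ℤ) - (i : ℤ)
          omega
        rw [h2]
        rfl
    · intro j hj
      by_cases hj0 : j < 0
      · exact x.2 j hj0
      · refine hn j (fun h => hj ?_)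
        rw [Finset.mem_map]
        refine ⟨j.toNat, ?_, ?_⟩
        · rw [Finset.mem_range]
          rw [Finset.mem_Icc] at h
          omega
        · show ((j.toNat : ℕ) : ℤ) = j
          omega
  commutes' d := by
    show G.psiFun (algebraMap G.D0 G.DGe d) = algebraMap G.D0 G.DGe[X] d
    rw [Polynomial.algebraMap_apply]
    ext k
    rw [coeff_psiFun, coe_cmp, coeff_C, coe_algebraMap_ge]
    split_ifs with h
    · subst h
      rw [coe_algebraMap_ge]
      exact G.pr_same d.2
    · exact G.pr_ne d.2 (by omega)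

theorem psi_apply (x : G.DGe) : G.psi x = G.psiFun x := rfl

theorem eval_psi (x : G.DGe) : (G.psi x).eval 1 = x := by
  rw [psi_apply, psiFun, eval_finsetSum]
  simp only [eval_monomial, one_pow, mul_one]
  refine Subtype.ext ?_
  rw [AddSubmonoidClass.coe_finsetSum]
  simp only [coe_cmp]
  conv_rhs => rw [G.eq_sum (x : D) ((Finset.range (G.bd x + 1)).map Nat.castEmbedding) (by
    intro j hj
    by_cases hj0 : j < 0
    · exact x.2 j hj0
    · refine G.bd_spec (x : D) j (fun h => hj ?_)
      rw [Finset.mem_map]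
      refine ⟨j.toNat, ?_, ?_⟩
      · rw [Finset.mem_range]
        rw [Finset.mem_Icc] at h
        omega
      · show ((j.toNat : ℕ) : ℤ) = j
        omega)]
  rw [Finset.sum_map]
  rfl

section localize

variable (m : Ideal G.D0) [hm : m.IsPrime]

/-- the complement of a prime ideal of `D_0`, as a submonoid of `D` -/
def primeC : Submonoid D := m.primeCompl.map (G.D0.subtype : G.D0 →* D)

theorem mem_primeC {x : D} : x ∈ G.primeC m ↔ ∃ h : x ∈ G.A 0, (⟨x, h⟩ : G.D0) ∉ m := by
  constructor
  · rintro ⟨y, hy, rfl⟩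
    exact ⟨y.2, hy⟩
  · rintro ⟨h, h'⟩
    exact ⟨⟨x, h⟩, h', rfl⟩

theorem primeC_le : ∀ s ∈ G.primeC m, s ∈ G.A 0 := fun _ hs => ((G.mem_primeC m).1 hs).1

theorem loc_locGrd : (G.locGrd (G.primeC m) (G.primeC_le m) (Localization (G.primeC m))).Loc := by
  set S := G.primeC m with hS
  set L := Localization S with hL
  constructor
  · intro h
    have h1 : algebraMap D L 1 = algebraMap D L 0 := by rw [map_one, map_zero]; exact h
    obtain ⟨c, hc⟩ := (IsLocalization.eq_iff_exists S L).1 h1
    rw [mul_one, mul_zero] at hc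
    obtain ⟨h2, h3⟩ := (G.mem_primeC m).1 c.2
    refine h3 ?_
    have h4 : (⟨(c : D), h2⟩ : G.D0) = 0 := Subtype.ext hc
    rw [h4]
    exact m.zero_mem
  · rintro x ⟨s, hs, a, ha, h1⟩
    obtain ⟨hs0, hs1⟩ := (G.mem_primeC m).1 hs
    have hu := IsLocalization.map_units L (⟨s, hs⟩ : S)
    obtain ⟨u, hu'⟩ := hu.exists_right_inv
    simp only at hu'
    by_cases ham : (⟨a, ha⟩ : G.D0) ∈ m
    · right
      have h2 : s - a ∈ S := by
        rw [hS, mem_primeC]
        refine ⟨(G.A 0).sub_mem hs0 ha, fun h3 => hs1 ?_⟩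
        have h4 : (⟨s, hs0⟩ : G.D0) = ⟨s - a, (G.A 0).sub_mem hs0 ha⟩ + ⟨a, ha⟩ :=
          Subtype.ext (by simp)
        rw [h4]
        exact m.add_mem h3 ham
      obtain ⟨w, hw⟩ := (IsLocalization.map_units L (⟨s - a, h2⟩ : S)).exists_right_inv
      simp only at hw
      refine ⟨w * algebraMap D L s, ⟨s - a, h2, s, hs0, ?_⟩, ?_⟩
      · calc w * algebraMap D L s * algebraMap D L (s - a)
            = (algebraMap D L (s - a) * w) * algebraMap D L s := by ring
          _ = algebraMap D L s := by rw [hw, one_mul]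
      · calc (1 - x) * (w * algebraMap D L s)
            = (algebraMap D L s - x * algebraMap D L s) * w := by ring
          _ = 1 := by rw [h1, ← map_sub, hw]
    · left
      have h2 : a ∈ S := by
        rw [hS, mem_primeC]
        exact ⟨ha, ham⟩
      obtain ⟨w, hw⟩ := (IsLocalization.map_units L (⟨a, h2⟩ : S)).exists_right_inv
      simp only at hw
      refine ⟨w * algebraMap D L s, ⟨a, h2, s, hs0, ?_⟩, ?_⟩
      · calc w * algebraMap D L s * algebraMap D L a
            = (algebraMap D L a * w) * algebraMap D L s := by ring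
          _ = algebraMap D L s := by rw [hw, one_mul]
      · calc x * (w * algebraMap D L s) = (x * algebraMap D L s) * w := by ring
          _ = 1 := by rw [h1, hw]

end localize

/-- **Theorem H** from its case D6 of local `D_0`. -/
theorem H_of_D6 (hD6 : ∀ {L : Type u} [CommRing L] (G : Grd L) (_ : G.Loc) {ι : Type w}
    [Fintype ι] [DecidableEq ι] [Nontrivial ι] (v : ι → G.DGe) (_ : Um v)
    (_ : Comp (fun i => algebraMap L (Localization G.Sigma) (v i))), Comp v)
    {D : Type u} [CommRing D] (G : Grd D) {ι : Type w} [Fintype ι] [DecidableEq ι]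
    [Nontrivial ι] (v : ι → G.DGe) (hv : Um v)
    (hE : Comp (fun i => algebraMap D (Localization G.Sigma) (v i)))
    (h0 : Comp (fun i => G.pi0 (v i))) : Comp v := by
  have key : GEq v (fun i => (G.psi (v i)).coeff 0) := by
    refine LG_graded (R := G.D0) G.psi G.eval_psi v hv (fun m hm => ?_)
    have _ : m.IsPrime := hm.isPrime
    set S := G.primeC m with hS
    set L := Localization S with hL
    set G' := G.locGrd S (G.primeC_le m) L with hG'
    -- `v` is completable over `L_{≥0}`
    have h1 : Comp (fun i => G.geMap S (G.primeC_le m) L (v i)) := by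
      refine hD6 G' (G.loc_locGrd m) _ (hv.map _) ?_
      have h2 := hE.map (IsLocalization.map (M := G.Sigma) (S := Localization G.Sigma)
        (T := G'.Sigma) (Localization G'.Sigma) (algebraMap D L) (G.sigma_le S (G.primeC_le m) L))
      simp only [IsLocalization.map_eq] at h2
      exact h2
    -- transport to the localization of `D_{≥0}`
    set W : Submonoid G.DGe := Algebra.algebraMapSubmonoid G.DGe m.primeCompl with hW
    have hWS : ∀ x : G.DGe, x ∈ W ↔ (x : D) ∈ S := by
      intro x
      rw [hS, mem_primeC]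
      constructor
      · rintro ⟨y, hy, rfl⟩
        exact ⟨y.2, hy⟩
      · rintro ⟨h, h'⟩
        exact ⟨⟨x, h⟩, h', Subtype.ext rfl⟩
    let _ : Algebra G.DGe G'.DGe := (G.geMap S (G.primeC_le m) L).toAlgebra
    have _ : IsLocalization W G'.DGe := G.isLocalization_ge S (G.primeC_le m) L W hWS
    have h3 := h1.map (IsLocalization.lift (M := W) (S := G'.DGe)
      (g := algebraMap G.DGe (Localization W)) (fun y => IsLocalization.map_units _ y))
    have h4 : ∀ x : G.DGe, (IsLocalization.lift (M := W) (S := G'.DGe)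
      (g := algebraMap G.DGe (Localization W)) (fun y => IsLocalization.map_units _ y))
        (G.geMap S (G.primeC_le m) L x) = algebraMap G.DGe (Localization W) x := by
      intro x
      exact IsLocalization.lift_eq _ x
    simp only [h4] at h3
    exact h3
  have h5 : Comp (fun i => (G.psi (v i)).coeff 0) := by
    have h6 := h0.map (algebraMap G.D0 G.DGe)
    have h7 : (fun i => algebraMap G.D0 G.DGe (G.pi0 (v i))) = fun i => (G.psi (v i)).coeff 0 := by
      funext i
      rw [psi_apply, coeff_psiFun]
      exact Subtype.ext rfl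
    rw [h7] at h6
    exact h6
  exact key.symm.comp h5

end Grd

end GB
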