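import Mathlib
import Pool.Agent.helper89.GB.H

/-!
# Project gb: constructors of gradings, Theorem H in the form used for monoid algebras.
-/

set_option linter.unusedSectionVars false

namespace GB

universe u w

namespace Grd

/-- a `GradedRing` of Mathlib as a `Grd` -/
def ofGradedRing {D : Type*} [CommRing D] {σ : Type*} [SetLike σ D] [AddSubgroupClass σ D]
    (𝒜 : ℤ → σ) [GradedRing 𝒜] : Grd D where
  A j := AddSubgroup.ofClass (𝒜 j)
  pr j := GradedRing.proj 𝒜 j
  one_mem := SetLike.GradedOne.one_mem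
  mul_mem := fun hx hy => SetLike.GradedMul.mul_mem hx hy
  pr_mem := fun j x => SetLike.coe_mem _
  pr_same := fun hx => DirectSum.decompose_of_mem_same 𝒜 hx
  pr_ne := fun hx h => DirectSum.decompose_of_mem_ne 𝒜 hx h
  exists_sum := by
    classical
    intro x
    refine ⟨(DirectSum.decompose 𝒜 x).support.sup Int.natAbs, ?_⟩
    conv_lhs => rw [← DirectSum.sum_support_decompose 𝒜 x]
    refine Finset.sum_subset ?_ ?_
    · intro j hj
      have := Finset.le_sup (f := Int.natAbs) hj
      rw [Finset.mem_Icc]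
      omega
    · intro j _ hj
      rw [DFinsupp.notMem_support_iff] at hj
      rw [hj]
      rfl

variable {R : Type*} [CommRing R] {M : Type*} [AddCommMonoid M]

/-- the grading of the monoid algebra `R[M]` by a degree homomorphism `a : M → ℤ` -/
noncomputable def ofDeg (R : Type*) [CommRing R] {M : Type*} [AddCommMonoid M] (a : M →+ ℤ) :
    Grd (AddMonoidAlgebra R M) where
  A j :=
    { carrier := {f | ∀ m, f.coeff m ≠ 0 → a m = j}
      zero_mem' := fun m h => absurd rfl h
      add_mem' := fun {f g} hf hg m h => by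
        by_cases h1 : f.coeff m = 0
        · refine hg m (fun h2 => h ?_)
          rw [AddMonoidAlgebra.coeff_add, Finsupp.add_apply, h1, h2, add_zero]
        · exact hf m h1
      neg_mem' := fun {f} hf m h => hf m (fun h1 => h (by
        rw [AddMonoidAlgebra.coeff_neg, Finsupp.neg_apply, h1, neg_zero])) }
  pr j :=
    { toFun := fun f => AddMonoidAlgebra.ofCoeff (f.coeff.filter (fun m => a m = j))
      map_zero' := by
        refine AddMonoidAlgebra.ext (Finsupp.ext (fun m => ?_))
        show (Finsupp.filter (fun m => a m = j) (0 : M →₀ R)) m = 0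
        rw [Finsupp.filter_apply]
        simp
      map_add' := fun f g => by
        refine AddMonoidAlgebra.ext ?_
        simp [Finsupp.filter_add] }
  one_mem := by
    classical
    intro m h
    have h1 : m = 0 := by
      by_contra h2
      refine h ?_
      rw [AddMonoidAlgebra.one_def, AddMonoidAlgebra.coeff_single, Finsupp.single_apply,
        if_neg (Ne.symm h2)]
    rw [h1, map_zero]
  mul_mem := by
    classical
    intro i j f g hf hg c hc
    obtain ⟨x, hx, y, hy, rfl⟩ : ∃ y ∈ f.coeff.support, ∃ z ∈ g.coeff.support, y + z = c :=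
      Finset.mem_add.1 <| AddMonoidAlgebra.support_coeff_mul_subset f g
        (Finsupp.mem_support_iff.2 hc)
    rw [map_add, hf x (Finsupp.mem_support_iff.1 hx), hg y (Finsupp.mem_support_iff.1 hy)]
  pr_mem := by
    intro j f m h
    by_contra h1
    exact h (Finsupp.filter_apply_neg (fun m => a m = j) f.coeff h1)
  pr_same := by
    intro j f hf
    refine AddMonoidAlgebra.ext ?_
    refine Finsupp.ext (fun m => ?_)
    show (f.coeff.filter (fun m => a m = j)) m = f.coeff m
    rw [Finsupp.filter_apply]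
    split_ifs with h
    · rfl
    · by_contra h1
      exact h (hf m (Ne.symm h1))
  pr_ne := by
    intro i j f hf hij
    refine AddMonoidAlgebra.ext ?_
    refine Finsupp.ext (fun m => ?_)
    show (f.coeff.filter (fun m => a m = j)) m = 0
    rw [Finsupp.filter_apply]
    split_ifs with h
    · by_contra h1
      exact hij ((hf m h1).symm.trans h)
    · rfl
  exists_sum := by
    intro f
    refine ⟨f.coeff.support.sup (fun m => (a m).natAbs), ?_⟩
    refine AddMonoidAlgebra.ext ?_
    rw [AddMonoidAlgebra.coeff_sum]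
    refine Finsupp.ext (fun m => ?_)
    rw [Finsupp.finsetSum_apply]
    have h1 : ∀ j : ℤ, ((AddMonoidAlgebra.ofCoeff (f.coeff.filter (fun m => a m = j)) :
        AddMonoidAlgebra R M).coeff) m = if a m = j then f.coeff m else 0 := fun j =>
      Finsupp.filter_apply _ _ _
    show f.coeff m = ∑ j ∈ Finset.Icc (-((f.coeff.support.sup fun m => (a m).natAbs : ℕ) : ℤ))
      ((f.coeff.support.sup fun m => (a m).natAbs : ℕ) : ℤ),
      ((AddMonoidAlgebra.ofCoeff (f.coeff.filter (fun m => a m = j)) :
        AddMonoidAlgebra R M).coeff) m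
    simp only [h1]
    rw [Finset.sum_ite_eq]
    by_cases hm : f.coeff m = 0
    · rw [hm]; simp
    · rw [if_pos]
      have h2 : (a m).natAbs ≤ f.coeff.support.sup fun m => (a m).natAbs :=
        Finset.le_sup (f := fun m => (a m).natAbs) (Finsupp.mem_support_iff.2 hm)
      rw [Finset.mem_Icc]
      omega

theorem ofDeg_coeff_pr (a : M →+ ℤ) (j : ℤ) (f : AddMonoidAlgebra R M) (m : M) :
    ((ofDeg R a).pr j f).coeff m = if a m = j then f.coeff m else 0 := Finsupp.filter_apply _ _ _

theorem mem_ofDeg_A (a : M →+ ℤ) (j : ℤ) (f : AddMonoidAlgebra R M) :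
    f ∈ (ofDeg R a).A j ↔ ∀ m, f.coeff m ≠ 0 → a m = j := Iff.rfl

theorem mem_ofDeg_DGe (a : M →+ ℤ) (f : AddMonoidAlgebra R M) :
    f ∈ (ofDeg R a).DGe ↔ ∀ m, f.coeff m ≠ 0 → 0 ≤ a m := by
  rw [mem_DGe]
  constructor
  · intro h m hm
    by_contra h1
    have h2 := congrArg (fun g => g.coeff m) (h (a m) (by omega))
    simp only [ofDeg_coeff_pr, if_true] at h2
    exact hm h2
  · intro h j hj
    refine AddMonoidAlgebra.ext (Finsupp.ext (fun m => ?_))
    rw [ofDeg_coeff_pr]
    split_ifs with h1
    · by_contra h2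
      have := h m h2
      omega
    · rfl

theorem mem_ofDeg_Le (a : M →+ ℤ) (h : ℤ) (f : AddMonoidAlgebra R M) :
    f ∈ (ofDeg R a).Le h ↔ ∀ m, f.coeff m ≠ 0 → a m ≤ h := by
  rw [mem_Le]
  constructor
  · intro h' m hm
    by_contra h1
    have h2 := congrArg (fun g => g.coeff m) (h' (a m) (by omega))
    simp only [ofDeg_coeff_pr, if_true] at h2
    exact hm h2
  · intro h' j hj
    refine AddMonoidAlgebra.ext (Finsupp.ext (fun m => ?_))
    rw [ofDeg_coeff_pr]
    split_ifs with h1
    · by_contra h2
      have := h' m h2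
      omega
    · rfl

theorem mem_ofDeg_Sigma (a : M →+ ℤ) (f : AddMonoidAlgebra R M) :
    f ∈ (ofDeg R a).Sigma ↔ ∀ m, (f - 1).coeff m ≠ 0 → a m < 0 := by
  rw [mem_Sigma, mem_ofDeg_Le]
  exact ⟨fun h m hm => by have := h m hm; omega, fun h m hm => by have := h m hm; omega⟩

/-- Theorem H in the form of homomorphisms: `φ : B → D` is injective with image `D_{≥0}`,
`f : B0 → D` has values in `D_0`. -/
theorem H' (hH : H_stmt.{u, w}) {D : Type u} [CommRing D] (G : Grd D) {ι : Type w} [Fintype ι]
    [DecidableEq ι] [Nontrivial ι] {B : Type*} [CommRing B] (φ : B →+* D)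
    (hφ : Function.Injective φ) (hr : ∀ x, x ∈ G.DGe ↔ ∃ b, φ b = x) (v : ι → B) (hv : Um v)
    (hE : Comp (fun i => algebraMap D (Localization G.Sigma) (φ (v i))))
    {B0 : Type*} [CommRing B0] (f : B0 →+* D) (hf : ∀ y, f y ∈ G.A 0) (v0 : ι → B0)
    (h0 : Comp v0) (hv0 : ∀ i, f (v0 i) = G.pr 0 (φ (v i))) : Comp v := by
  -- the isomorphism `B ≃ D_{≥0}`
  set φ' : B →+* G.DGe := φ.codRestrict G.DGe (fun b => (hr _).2 ⟨b, rfl⟩) with hφ'
  have hbij : Function.Bijective φ' := by
    constructor
    · intro x y h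
      exact hφ (congrArg Subtype.val h)
    · rintro ⟨x, hx⟩
      obtain ⟨b, hb⟩ := (hr x).1 hx
      exact ⟨b, Subtype.ext hb⟩
  set e : B ≃+* G.DGe := RingEquiv.ofBijective φ' hbij with he
  have hev : ∀ b, (e b : D) = φ b := fun b => rfl
  have h1 : Comp (fun i => e (v i)) := by
    refine hH G (fun i => e (v i)) (hv.map (e : B →+* G.DGe)) ?_ ?_
    · simp only [hev]
      exact hE
    · set f' : B0 →+* G.D0 := f.codRestrict G.D0 hf with hf'
      have h2 := h0.map f'
      have h3 : (fun i => f' (v0 i)) = fun i => G.pi0 (e (v i)) := by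
        funext i
        refine Subtype.ext ?_
        rw [coe_pi0, hev]
        exact hv0 i
      rw [h3] at h2
      exact h2
  have h2 := h1.map (e.symm : G.DGe →+* B)
  have h3 : (fun i => (e.symm : G.DGe →+* B) (e (v i))) = v := by
    funext i
    exact e.symm_apply_apply (v i)
  rw [h3] at h2
  exact h2

theorem H (hD6 : D6_stmt.{u, w}) : H_stmt.{u, w} := by
  intro D _ G ι _ _ _ v hv hE h0
  exact H_of_D6 (@hD6) G v hv hE h0

end Grd

end GB
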