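import Mathlib
import Pool.Agent.helper70.GB.SpecN
import Pool.Agent.helper89.GB.Ctor

/-!
# Project gb: module TM, Theorem H for monoid algebras.
-/

namespace GB

universe u

theorem TM_incl_apply {R : Type*} [CommRing R] {P : Type*} [AddCommMonoid P]
    {N N' : AddSubmonoid P} (h : N ≤ N') (f : AddMonoidAlgebra R N) :
    incl R h f = AddMonoidAlgebra.mapDomain (AddSubmonoid.inclusion h) f := rfl

theorem TM_incl_injective {R : Type*} [CommRing R] {P : Type*} [AddCommMonoid P]
    {N N' : AddSubmonoid P} (h : N ≤ N') : Function.Injective (incl R h) := by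
  intro x y hxy
  exact AddMonoidAlgebra.mapDomain_injective (AddSubmonoid.inclusion_injective h) hxy

/-- the image of a monoid algebra under an injective homomorphism of monoids -/
theorem TM_mem_range {R : Type*} [CommRing R] {P Q : Type*} [AddCommMonoid P] [AddCommMonoid Q]
    (j : P →+ Q) (hj : Function.Injective j) (f : AddMonoidAlgebra R Q) :
    (∃ g : AddMonoidAlgebra R P, AddMonoidAlgebra.mapDomain j g = f) ↔
      ∀ m, f.coeff m ≠ 0 → ∃ p, j p = m := by
  classical
  constructor
  · rintro ⟨g, rfl⟩ m hm
    have h1 : m ∈ (Finsupp.mapDomain j g.coeff).support := by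
      rw [Finsupp.mem_support_iff]
      exact hm
    have h2 := Finsupp.mapDomain_support h1
    rw [Finset.mem_image] at h2
    obtain ⟨p, _, hp⟩ := h2
    exact ⟨p, hp⟩
  · intro h
    refine ⟨AddMonoidAlgebra.ofCoeff (Finsupp.comapDomain j f.coeff hj.injOn), ?_⟩
    refine AddMonoidAlgebra.ext ?_
    show Finsupp.mapDomain j (Finsupp.comapDomain j f.coeff hj.injOn) = f.coeff
    refine Finsupp.mapDomain_comapDomain j hj f.coeff ?_
    intro m hm
    exact h m (Finsupp.mem_support_iff.1 hm)

theorem TM (hD6 : Grd.D6_stmt.{u, 0}) : TM_stmt.{u} := by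
  classical
  intro R G _ _ N1 l ι _ _ hι v hv hE h0
  have _ : Nontrivial ι := Fintype.one_lt_card_iff_nontrivial.1 hι
  set a : N1 →+ ℤ := l.comp N1.subtype with ha
  set Gr := Grd.ofDeg R a with hGr
  -- `SigMA` is contained in `Sigma`
  have hSig : SigMA R N1 l ≤ Gr.Sigma := by
    rw [SigMA, Submonoid.closure_le]
    intro x hx
    refine (Grd.mem_ofDeg_Sigma a x).2 (fun m hm => ?_)
    by_contra h1
    exact hm (hx m (not_lt.1 h1))
  set inc0 : zeroPart N1 l →+ N1 :=
    (AddSubmonoid.inclusion (posPart_le N1 l)).comp (zeroPart N1 l).subtype with hinc0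
  refine Grd.H' (Grd.H @hD6) Gr (incl R (posPart_le N1 l) : AddMonoidAlgebra R (posPart N1 l) →+*
      AddMonoidAlgebra R N1) (TM_incl_injective _) ?_ v hv ?_
    (AddMonoidAlgebra.mapDomainRingHom R inc0) ?_
    (fun i => retr R (zeroPart N1 l) (zeroPart_isFace N1 l) (v i)) h0 ?_
  · intro x
    rw [hGr, Grd.mem_ofDeg_DGe]
    have h1 := TM_mem_range (R := R) (AddSubmonoid.inclusion (posPart_le N1 l))
      (AddSubmonoid.inclusion_injective _) x
    have h2 : (∃ b, (incl R (posPart_le N1 l) : AddMonoidAlgebra R (posPart N1 l) →+*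
      AddMonoidAlgebra R N1) b = x) ↔ (∃ g, AddMonoidAlgebra.mapDomain
        (AddSubmonoid.inclusion (posPart_le N1 l)) g = x) := Iff.rfl
    rw [h2, h1]
    constructor
    · intro h m hm
      exact ⟨⟨m.1, m.2, h m hm⟩, Subtype.ext rfl⟩
    · intro h m hm
      obtain ⟨p, rfl⟩ := h m hm
      exact p.2.2
  · have h1 := hE.map (IsLocalization.map (M := SigMA R N1 l) (S := Localization (SigMA R N1 l))
      (T := Gr.Sigma) (Localization Gr.Sigma) (RingHom.id _) hSig)
    simp only [IsLocalization.map_eq] at h1
    exact h1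
  · intro y
    rw [hGr, Grd.mem_ofDeg_A]
    intro m hm
    have h1 := (TM_mem_range (R := R) inc0 (by
      intro p q hpq
      exact Subtype.ext (Subtype.ext (congrArg (fun x : N1 => (x : G)) hpq)))
      (AddMonoidAlgebra.mapDomainRingHom R inc0 y)).1 ⟨y, rfl⟩ m hm
    obtain ⟨p, rfl⟩ := h1
    exact p.2
  · intro i
    -- both sides are additive in `v i`
    have key : ∀ x : AddMonoidAlgebra R (posPart N1 l),
        AddMonoidAlgebra.mapDomainRingHom R inc0 (retr R (zeroPart N1 l) (zeroPart_isFace N1 l) x) =
          Gr.pr 0 (incl R (posPart_le N1 l) x) := by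
      intro x
      have h1 : ((AddMonoidAlgebra.mapDomainRingHom R inc0).comp
          (retr R (zeroPart N1 l) (zeroPart_isFace N1 l) : AddMonoidAlgebra R (posPart N1 l) →+*
            AddMonoidAlgebra R (zeroPart N1 l))).toAddMonoidHom =
          (Gr.pr 0).comp ((incl R (posPart_le N1 l) : AddMonoidAlgebra R (posPart N1 l) →+*
            AddMonoidAlgebra R N1).toAddMonoidHom) := by
        refine AddMonoidAlgebra.addMonoidHom_ext (fun m r => ?_)
        show AddMonoidAlgebra.mapDomainRingHom R inc0
          (retr R (zeroPart N1 l) (zeroPart_isFace N1 l) (AddMonoidAlgebra.single m r)) =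
            Gr.pr 0 (incl R (posPart_le N1 l) (AddMonoidAlgebra.single m r))
        have e1 : incl R (posPart_le N1 l) (AddMonoidAlgebra.single m r) =
            AddMonoidAlgebra.single (AddSubmonoid.inclusion (posPart_le N1 l) m) r :=
          AddMonoidAlgebra.mapDomain_single
        have e2 : retr R (zeroPart N1 l) (zeroPart_isFace N1 l) (AddMonoidAlgebra.single m r) =
            r • (if h : m ∈ zeroPart N1 l then
              (AddMonoidAlgebra.single ⟨m, h⟩ 1 : AddMonoidAlgebra R (zeroPart N1 l)) else 0) := by
          rw [retr, AddMonoidAlgebra.lift_single]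
          rfl
        rw [e1, e2]
        by_cases hm : m ∈ zeroPart N1 l
        · rw [dif_pos hm, AddMonoidAlgebra.smul_single, smul_eq_mul, mul_one]
          have e3 : AddMonoidAlgebra.mapDomainRingHom R inc0
              (AddMonoidAlgebra.single (⟨m, hm⟩ : zeroPart N1 l) r) =
                AddMonoidAlgebra.single (inc0 ⟨m, hm⟩) r := AddMonoidAlgebra.mapDomain_single
          rw [e3]
          refine (Gr.pr_same ?_).symm
          rw [hGr, Grd.mem_ofDeg_A]
          intro q hq
          have e4 : q = inc0 ⟨m, hm⟩ := by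
            by_contra h
            refine hq ?_
            rw [AddMonoidAlgebra.coeff_single, Finsupp.single_eq_of_ne h]
          rw [e4]
          exact hm
        · rw [dif_neg hm, smul_zero, map_zero]
          refine (Gr.pr_ne (i := l m.1) ?_ ?_).symm
          · rw [hGr, Grd.mem_ofDeg_A]
            intro q hq
            have e4 : q = AddSubmonoid.inclusion (posPart_le N1 l) m := by
              by_contra h
              refine hq ?_
              rw [AddMonoidAlgebra.coeff_single, Finsupp.single_eq_of_ne h]
            rw [e4]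
            rfl
          · exact hm
      exact congrArg (fun φ => φ x) h1
    exact key (v i)

end GB
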