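import Pool.Agent.helper44.GB.D6
import Pool.Agent.helper89.GB.TM

/-!
# Project gb: TM without hypotheses, and Theorem H without hypotheses
-/

namespace GB

universe u w

theorem Grd.H_all : Grd.H_stmt.{u, w} := Grd.H @Grd.D6_all

theorem TM_all : TM_stmt.{u} := TM @Grd.D6_all

end GB
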