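import Mathlib

/-!
# Project gb: the Toeplitz lemma (D4) and the factorization (D5), in an abstract setting.
-/

namespace GB

/-- The abstract setting of the Toeplitz lemma.  `E` is a commutative ring, `D j` the homogeneous
elements of degree `j`, `P h` the sums of homogeneous elements of degree greater than `h`, `Q h` the
elements of degree at most `h`, `M j` the homogeneous elements of degree `j` of the graded maximal
ideal. -/
structure Toep (E : Type*) [CommRing E] where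
  D : ℤ → AddSubgroup E
  P : ℤ → AddSubgroup E
  Q : ℤ → AddSubgroup E
  M : ℤ → AddSubgroup E
  one_mem : (1 : E) ∈ D 0
  D_P : ∀ {h j : ℤ}, h < j → D j ≤ P h
  D_Q : ∀ {h j : ℤ}, j ≤ h → D j ≤ Q h
  DP : ∀ {i h : ℤ} {x y : E}, x ∈ D i → y ∈ P h → x * y ∈ P (i + h)
  PP : ∀ {x y : E}, x ∈ P 0 → y ∈ P 0 → x * y ∈ P 0
  DQ : ∀ {i h : ℤ} {x y : E}, x ∈ D i → y ∈ Q h → x * y ∈ Q (i + h)
  QQ : ∀ {h k : ℤ} {x y : E}, x ∈ Q h → y ∈ Q k → x * y ∈ Q (h + k)
  Q_mono : ∀ {h k : ℤ}, h ≤ k → Q h ≤ Q k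
  exists_Q : ∀ x : E, ∃ m : ℤ, x ∈ Q m
  PQ : ∀ (h : ℤ) (x : E), ∃ y ∈ P h, ∃ z ∈ Q h, x = y + z
  disj : ∀ {x : E}, x ∈ P 0 → x ∈ Q 0 → x = 0
  split : ∀ (h : ℤ) (m : ℕ) {x : E}, x ∈ Q (h + m) →
    ∃ d : ℤ → E, (∀ j, d j ∈ D j) ∧ x - ∑ j ∈ Finset.Ioc h (h + m), d j ∈ Q h
  M_le : ∀ j, M j ≤ D j
  M_mul : ∀ {i j : ℤ} {x y : E}, x ∈ D i → y ∈ M j → x * y ∈ M (i + j)
  M_unit : ∀ {x : E}, x ∈ M 0 → ∃ y ∈ D 0, y * (1 - x) = 1

namespace Toep

variable {E : Type*} [CommRing E] (t : Toep E)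

/-- the ideal of `E` generated by the homogeneous elements of the graded maximal ideal -/
def I : Ideal E := Ideal.span (⋃ j, (t.M j : Set E))

variable {ι : Type*} [Fintype ι] [DecidableEq ι]

/-- `U_h = g P_h^n + Q_h^n` -/
def U (g : Matrix ι ι E) (h : ℤ) : AddSubgroup (ι → E) where
  carrier := {x | ∃ y z : ι → E, (∀ i, y i ∈ t.P h) ∧ (∀ i, z i ∈ t.Q h) ∧ x = g.mulVec y + z}
  zero_mem' := ⟨0, 0, fun _ => (t.P h).zero_mem, fun _ => (t.Q h).zero_mem, by simp⟩
  add_mem' := by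
    rintro a b ⟨y, z, hy, hz, rfl⟩ ⟨y', z', hy', hz', rfl⟩
    exact ⟨y + y', z + z', fun i => (t.P h).add_mem (hy i) (hy' i),
      fun i => (t.Q h).add_mem (hz i) (hz' i), by rw [Matrix.mulVec_add]; abel⟩
  neg_mem' := by
    rintro a ⟨y, z, hy, hz, rfl⟩
    exact ⟨-y, -z, fun i => (t.P h).neg_mem (hy i), fun i => (t.Q h).neg_mem (hz i),
      by rw [Matrix.mulVec_neg]; abel⟩

omit [DecidableEq ι] in
theorem mem_U {g : Matrix ι ι E} {h : ℤ} {x : ι → E} : x ∈ t.U g h ↔
    ∃ y z : ι → E, (∀ i, y i ∈ t.P h) ∧ (∀ i, z i ∈ t.Q h) ∧ x = g.mulVec y + z := Iff.rfl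

omit [DecidableEq ι] in
theorem smul_U {g : Matrix ι ι E} {h d : ℤ} {c : E} (hc : c ∈ t.D d) {x : ι → E}
    (hx : x ∈ t.U g h) : c • x ∈ t.U g (d + h) := by
  obtain ⟨y, z, hy, hz, rfl⟩ := hx
  refine ⟨c • y, c • z, fun i => t.DP hc (hy i), fun i => t.DQ hc (hz i), ?_⟩
  rw [smul_add, Matrix.mulVec_smul]

/-- spans of homogeneous vectors of degrees `h + 1, ..., h + m`, with coefficients in `W j` -/
def V (W : ℤ → AddSubgroup E) (ι : Type*) [DecidableEq ι] (m : ℕ) (h : ℤ) :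
    AddSubgroup (ι → E) :=
  AddSubgroup.closure {x | ∃ (i : ι) (j : ℤ) (c : E), h < j ∧ j ≤ h + m ∧ c ∈ W j ∧
    x = Pi.single i c}

/-- step (i) -/
theorem step_i {g g' : Matrix ι ι E} (hgg' : g * g' = 1) {m : ℕ}
    (hm : ∀ i j, g i j ∈ t.Q m) (h : ℤ) (x : ι → E) : x ∈ t.U g h ⊔ V t.D ι m h := by
  have h1 : ∀ i, ∃ y ∈ t.P h, ∃ z ∈ t.Q h, g'.mulVec x i = y + z := fun i => t.PQ h _
  choose y hy z hz hyz using h1
  have h2 : g'.mulVec x = y + z := funext hyz
  have h3 : x = g.mulVec y + g.mulVec z := by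
    rw [← Matrix.mulVec_add, ← h2, Matrix.mulVec_mulVec, hgg', Matrix.one_mulVec]
  have h4 : ∀ i, g.mulVec z i ∈ t.Q (h + m) := by
    intro i
    rw [Matrix.mulVec, dotProduct]
    refine (t.Q (h + m)).sum_mem (fun j _ => ?_)
    rw [add_comm]
    exact t.QQ (hm i j) (hz j)
  have h5 : ∀ i, ∃ d : ℤ → E, (∀ j, d j ∈ t.D j) ∧
      g.mulVec z i - ∑ j ∈ Finset.Ioc h (h + m), d j ∈ t.Q h := fun i => t.split h m (h4 i)
  choose d hd hq using h5
  have h6 : x = (g.mulVec y + fun i => (g.mulVec z i - ∑ j ∈ Finset.Ioc h (h + m), d i j)) +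
      ∑ i, ∑ j ∈ Finset.Ioc h (h + m), Pi.single i (d i j) := by
    rw [h3]
    have h7 : (∑ i, ∑ j ∈ Finset.Ioc h (h + m), Pi.single i (d i j) : ι → E) =
        fun i => ∑ j ∈ Finset.Ioc h (h + m), d i j := by
      funext k
      rw [Finset.sum_apply, Finset.sum_eq_single k]
      · rw [Finset.sum_apply]
        simp
      · intro i _ hik
        rw [Finset.sum_apply]
        refine Finset.sum_eq_zero (fun j _ => ?_)
        rw [Pi.single_eq_of_ne hik.symm]
      · intro hk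
        exact absurd (Finset.mem_univ k) hk
    rw [h7]
    funext k
    simp only [Pi.add_apply]
    ring
  rw [h6]
  refine AddSubgroup.add_mem_sup ⟨y, _, hy, fun i => hq i, rfl⟩ ?_
  refine AddSubgroup.sum_mem _ (fun i _ => AddSubgroup.sum_mem _ (fun j hj => ?_))
  rw [Finset.mem_Ioc] at hj
  exact AddSubgroup.subset_closure ⟨i, j, d i j, hj.1, hj.2, hd i j, rfl⟩

omit [Fintype ι] in
theorem smul_V {m : ℕ} {h d : ℤ} {c : E} (hc : c ∈ t.M d) {x : ι → E}
    (hx : x ∈ V t.D ι m h) : c • x ∈ V t.M ι m (d + h) := by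
  induction hx using AddSubgroup.closure_induction with
  | mem x hx =>
    obtain ⟨i, j, e, h1, h2, he, rfl⟩ := hx
    refine AddSubgroup.subset_closure ⟨i, d + j, c * e, by linarith, by linarith, ?_, ?_⟩
    · rw [mul_comm, add_comm d j]
      exact t.M_mul he hc
    · rw [← Pi.single_smul, smul_eq_mul]
  | zero => rw [smul_zero]; exact AddSubgroup.zero_mem _
  | add x y _ _ hx hy => rw [smul_add]; exact AddSubgroup.add_mem _ hx hy
  | neg x _ hx => rw [smul_neg]; exact AddSubgroup.neg_mem _ hx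

/-- step (ii) -/
theorem step_ii {g g' : Matrix ι ι E} (hgg' : g * g' = 1) {m : ℕ}
    (hm : ∀ i j, g i j ∈ t.Q m) (h : ℤ) (x : ι → E) (hx : ∀ i, x i ∈ t.I) :
    x ∈ t.U g h ⊔ V t.M ι m h := by
  have key : ∀ (i : ι) (a : E), a ∈ t.I → Pi.single i a ∈ t.U g h ⊔ V t.M ι m h := by
    intro i a ha
    have ha' : a ∈ Submodule.span E (⋃ j, (t.M j : Set E)) := ha
    rw [Submodule.mem_span_set'] at ha'
    obtain ⟨k, f, c, rfl⟩ := ha'
    have e1 : (Pi.single i (∑ l, f l • (c l : E)) : ι → E) =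
        ∑ l, (c l : E) • Pi.single i (f l) := by
      have e2 : ∀ l, (c l : E) • (Pi.single i (f l) : ι → E) = Pi.single i (f l • (c l : E)) := by
        intro l
        rw [← Pi.single_smul, smul_eq_mul, smul_eq_mul, mul_comm]
      simp only [e2]
      funext k
      rw [Finset.sum_apply]
      by_cases hk : k = i
      · subst hk
        simp
      · simp [Pi.single_eq_of_ne hk]
    rw [e1]
    refine AddSubgroup.sum_mem _ (fun l _ => ?_)
    obtain ⟨d, hd⟩ := Set.mem_iUnion.1 (c l).2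
    have e3 := t.step_i hgg' hm (h - d) (Pi.single i (f l))
    rw [AddSubgroup.mem_sup] at e3
    obtain ⟨u, hu, v, hv, huv⟩ := e3
    rw [← huv, smul_add]
    have e4 : d + (h - d) = h := by ring
    refine AddSubgroup.add_mem_sup ?_ ?_
    · have := t.smul_U (t.M_le d hd) hu
      rwa [e4] at this
    · have := t.smul_V hd hv
      rwa [e4] at this
  have e1 : x = ∑ i, Pi.single i (x i) := (Finset.univ_sum_single x).symm
  rw [e1]
  exact AddSubgroup.sum_mem _ (fun i _ => key i _ (hx i))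

/-- step (iv), elimination -/
theorem elim {X : Type*} [AddCommGroup X] [Module E X] (U : ℤ → AddSubgroup X)
    (hU : ∀ {d h : ℤ} {c : E} {x : X}, c ∈ t.D d → x ∈ U h → c • x ∈ U (d + h))
    {σ : Type*} [DecidableEq σ] (s : σ → ℤ) (e : σ → X) (T : Finset σ) :
    (∀ a, ∃ μ : σ → E, (∀ b, μ b ∈ t.M (s b - s a)) ∧ e a - ∑ b ∈ T, μ b • e b ∈ U (-s a)) →
    ∀ a, e a ∈ U (-s a) := by
  induction T using Finset.induction_on with
  | empty =>
    intro h a
    obtain ⟨μ, _, h2⟩ := h a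
    simpa using h2
  | insert c T hc ih =>
    intro h
    refine ih (fun a => ?_)
    obtain ⟨μ, hμ, h1⟩ := h a
    obtain ⟨ν, hν, h2⟩ := h c
    rw [Finset.sum_insert hc] at h1 h2
    have hνc : ν c ∈ t.M 0 := by
      have := hν c
      rwa [sub_self] at this
    obtain ⟨y, hy, hy1⟩ := t.M_unit hνc
    -- `e c = y ∑ ν b e b + y (rest)`
    refine ⟨fun b => μ b + μ c * (y * ν b), fun b => ?_, ?_⟩
    · refine (t.M _).add_mem (hμ b) ?_
      have e1 : y * ν b ∈ t.M (s b - s c) := by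
        have := t.M_mul hy (hν b)
        rwa [zero_add] at this
      have e2 := t.M_mul (t.M_le _ (hμ c)) e1
      have e3 : s c - s a + (s b - s c) = s b - s a := by ring
      rwa [e3] at e2
    · have e1 : y • (e c - (ν c • e c + ∑ b ∈ T, ν b • e b)) ∈ U (-s c) := by
        have := hU hy h2
        rwa [zero_add] at this
      have e2 : μ c • (y • (e c - (ν c • e c + ∑ b ∈ T, ν b • e b))) ∈ U (-s a) := by
        have := hU (t.M_le _ (hμ c)) e1
        have e3 : s c - s a + -s c = -s a := by ring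
        rwa [e3] at this
      have e4 := (U (-s a)).add_mem h1 e2
      have e5 : y • (e c - (ν c • e c + ∑ b ∈ T, ν b • e b)) = e c - ∑ b ∈ T, (y * ν b) • e b := by
        rw [smul_sub, smul_add, Finset.smul_sum]
        simp only [smul_smul]
        have e6 : e c = (y * (1 - ν c)) • e c := by rw [hy1, one_smul]
        have e7 : (y * (1 - ν c)) • e c = y • e c - (y * ν c) • e c := by
          rw [mul_sub, mul_one, sub_smul]
        have e8 : e c = y • e c - (y * ν c) • e c := e6.trans e7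
        nth_rewrite 3 [e8]
        abel
      rw [e5] at e4
      have e6 : e a - ∑ b ∈ T, (μ b + μ c * (y * ν b)) • e b =
          e a - (μ c • e c + ∑ b ∈ T, μ b • e b) + μ c • (e c - ∑ b ∈ T, (y * ν b) • e b) := by
        simp only [add_smul, Finset.sum_add_distrib, smul_sub, Finset.smul_sum, smul_smul]
        abel
      rw [e6]
      exact e4

/-- steps (iii), (iv): `e_i ∈ U_{-s}` for `1 ≤ s ≤ m` -/
theorem step_iv {g g' : Matrix ι ι E} (hgg' : g * g' = 1) {m : ℕ}
    (hm : ∀ i j, g i j ∈ t.Q m) (hI : ∀ i j, (g - 1) i j ∈ t.I) (i : ι) (s : ℤ) (hs1 : 1 ≤ s)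
    (hs2 : s ≤ m) : (Pi.single i (1 : E) : ι → E) ∈ t.U g (-s) := by
  -- the index set is `ι × {1, ..., m}`
  have key : ∀ a : ι × {s : ℤ // s ∈ Finset.Icc (1 : ℤ) m},
      ∃ μ : ι × {s : ℤ // s ∈ Finset.Icc (1 : ℤ) m} → E,
        (∀ b, μ b ∈ t.M ((b.2 : ℤ) - (a.2 : ℤ))) ∧
        Pi.single a.1 (1 : E) - ∑ b, μ b • (Pi.single b.1 (1 : E) : ι → E) ∈ t.U g (-(a.2 : ℤ)) := by
    rintro ⟨i, s, hs⟩
    rw [Finset.mem_Icc] at hs
    have e1 : (Pi.single i (1 : E) : ι → E) = g.mulVec (Pi.single i 1) + 0 -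
        (g - 1).mulVec (Pi.single i 1) := by
      rw [Matrix.sub_mulVec, Matrix.one_mulVec]
      abel
    have e2 : g.mulVec (Pi.single i 1) + 0 ∈ t.U g (-s) := by
      refine ⟨Pi.single i 1, 0, fun k => ?_, fun k => (t.Q _).zero_mem, rfl⟩
      by_cases hk : k = i
      · subst hk
        rw [Pi.single_eq_same]
        exact t.D_P (by linarith [hs.1]) t.one_mem
      · rw [Pi.single_eq_of_ne hk]
        exact (t.P _).zero_mem
    have e3 : (g - 1).mulVec (Pi.single i 1) ∈ t.U g (-s) ⊔ V t.M ι m (-s) := by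
      refine t.step_ii hgg' hm (-s) _ (fun k => ?_)
      rw [Matrix.mulVec_single_one]
      exact hI k i
    rw [AddSubgroup.mem_sup] at e3
    obtain ⟨u, hu, v, hv, huv⟩ := e3
    have e4 : ∀ v ∈ V t.M ι m (-s), ∃ μ : ι × {s : ℤ // s ∈ Finset.Icc (1 : ℤ) m} → E,
        (∀ b, μ b ∈ t.M ((b.2 : ℤ) - s)) ∧ v = ∑ b, μ b • (Pi.single b.1 (1 : E) : ι → E) := by
      intro v hv
      induction hv using AddSubgroup.closure_induction with
      | mem x hx =>
        obtain ⟨k, j, c, h1, h2, hc, rfl⟩ := hx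
        have h3 : j + s ∈ Finset.Icc (1 : ℤ) m := by
          rw [Finset.mem_Icc]; constructor <;> linarith
        refine ⟨Pi.single (k, ⟨j + s, h3⟩) c, fun b => ?_, ?_⟩
        · by_cases hb : b = (k, ⟨j + s, h3⟩)
          · subst hb
            rw [Pi.single_eq_same]
            simpa using hc
          · rw [Pi.single_eq_of_ne hb]
            exact (t.M _).zero_mem
        · rw [Finset.sum_eq_single (k, ⟨j + s, h3⟩)]
          · rw [Pi.single_eq_same, ← Pi.single_smul, smul_eq_mul, mul_one]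
          · intro b _ hb
            rw [Pi.single_eq_of_ne hb, zero_smul]
          · intro hb
            exact absurd (Finset.mem_univ _) hb
      | zero => exact ⟨0, fun b => (t.M _).zero_mem, by simp⟩
      | add x y _ _ hx hy =>
        obtain ⟨μ, h1, h2⟩ := hx
        obtain ⟨ν, h3, h4⟩ := hy
        refine ⟨μ + ν, fun b => (t.M _).add_mem (h1 b) (h3 b), ?_⟩
        rw [h2, h4, ← Finset.sum_add_distrib]
        exact Finset.sum_congr rfl (fun b _ => by rw [Pi.add_apply, add_smul])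
      | neg x _ hx =>
        obtain ⟨μ, h1, h2⟩ := hx
        refine ⟨-μ, fun b => (t.M _).neg_mem (h1 b), ?_⟩
        rw [h2, ← Finset.sum_neg_distrib]
        exact Finset.sum_congr rfl (fun b _ => by rw [Pi.neg_apply, neg_smul])
    obtain ⟨μ, h1, h2⟩ := e4 v hv
    refine ⟨fun b => -μ b, fun b => (t.M _).neg_mem (h1 b), ?_⟩
    have e5 : Pi.single i (1 : E) - ∑ b, (-μ b) • (Pi.single b.1 (1 : E) : ι → E) =
        (g.mulVec (Pi.single i 1) + 0) - u := by
      have e6 : ∑ b, (-μ b) • (Pi.single b.1 (1 : E) : ι → E) = -v := by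
        rw [h2, ← Finset.sum_neg_distrib]
        exact Finset.sum_congr rfl (fun b _ => by rw [neg_smul])
      rw [e6]
      nth_rewrite 1 [e1]
      rw [← huv]
      abel
    show Pi.single i (1 : E) - ∑ b, (-μ b) • (Pi.single b.1 (1 : E) : ι → E) ∈ t.U g (-s)
    rw [e5]
    exact AddSubgroup.sub_mem _ e2 hu
  have := t.elim (t.U g) (fun hc hx => t.smul_U hc hx)
    (fun a : ι × {s : ℤ // s ∈ Finset.Icc (1 : ℤ) m} => (a.2 : ℤ))
    (fun a => (Pi.single a.1 (1 : E) : ι → E)) Finset.univ key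
    (i, ⟨s, by rw [Finset.mem_Icc]; exact ⟨hs1, hs2⟩⟩)
  exact this

/-- **Toeplitz lemma** (D4). -/
theorem toeplitz {g g' : Matrix ι ι E} (hgg' : g * g' = 1) (hI : ∀ i j, (g - 1) i j ∈ t.I)
    (h : ℤ) (x : ι → E) : ∃ y z : ι → E, (∀ i, y i ∈ t.P h) ∧ (∀ i, z i ∈ t.Q h) ∧
      x = g.mulVec y + z := by
  -- a bound for the degrees of the entries of `g`
  obtain ⟨m, hm⟩ : ∃ m : ℕ, ∀ i j, g i j ∈ t.Q m := by
    have h1 : ∀ p : ι × ι, ∃ m : ℤ, g p.1 p.2 ∈ t.Q m := fun p => t.exists_Q _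
    choose κ hκ using h1
    refine ⟨Finset.univ.sup (fun p => (κ p).toNat), fun i j => ?_⟩
    refine t.Q_mono ?_ (hκ (i, j))
    have h2 : (κ (i, j)).toNat ≤ Finset.univ.sup (fun p => (κ p).toNat) :=
      Finset.le_sup (f := fun p => (κ p).toNat) (Finset.mem_univ (i, j))
    have h3 : κ (i, j) ≤ ((κ (i, j)).toNat : ℤ) := Int.self_le_toNat _
    exact h3.trans (by exact_mod_cast h2)
  have h1 := t.step_i hgg' hm h x
  have h2 : V t.D ι m h ≤ t.U g h := by
    rw [V, AddSubgroup.closure_le]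
    rintro _ ⟨i, j, c, hj1, hj2, hc, rfl⟩
    have h3 := t.step_iv hgg' hm hI i (j - h) (by linarith) (by linarith)
    have h4 := t.smul_U hc h3
    have h5 : j + -(j - h) = h := by ring
    rw [h5, ← Pi.single_smul, smul_eq_mul, mul_one] at h4
    exact h4
  rw [sup_eq_left.2 h2] at h1
  exact h1

/-- **Factorization** (D5). -/
theorem factor {g g' : Matrix ι ι E} (hgg' : g * g' = 1) (hI : ∀ i j, (g - 1) i j ∈ t.I) :
    ∃ y y' : Matrix ι ι E, (∀ i j, (y - 1) i j ∈ t.P 0) ∧ (∀ i j, (y' - 1) i j ∈ t.P 0) ∧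
      y' * y = 1 ∧ (∀ i j, (g * y) i j ∈ t.Q 0) := by
  have hg'g : g' * g = 1 := mul_eq_one_comm.1 hgg'
  -- the construction for `g`
  have c1 : ∀ (g g' : Matrix ι ι E), g * g' = 1 → (∀ i j, (g - 1) i j ∈ t.I) →
      ∃ y : Matrix ι ι E, (∀ i j, (y - 1) i j ∈ t.P 0) ∧ (∀ i j, (g * y) i j ∈ t.Q 0) := by
    intro g g' hgg' hI
    have h1 : ∀ k : ι, ∃ y z : ι → E, (∀ i, y i ∈ t.P 0) ∧ (∀ i, z i ∈ t.Q 0) ∧
        g.mulVec (Pi.single k 1) = g.mulVec y + z := fun k => t.toeplitz hgg' hI 0 _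
    choose η z hη hz hgz using h1
    refine ⟨1 - (Matrix.of η).transpose, fun i j => ?_, fun i j => ?_⟩
    · have e1 : (1 - (Matrix.of η).transpose - 1 : Matrix ι ι E) i j = -(η j i) := by
        simp [Matrix.sub_apply, Matrix.transpose_apply]
      rw [e1]
      exact (t.P 0).neg_mem (hη j i)
    · have e1 : (g * (1 - (Matrix.of η).transpose)) i j = z j i := by
        have e2 := congrFun (hgz j) i
        rw [mul_sub, mul_one, Matrix.sub_apply]
        have e3 : (g * (Matrix.of η).transpose) i j = g.mulVec (η j) i := by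
          rw [Matrix.mul_apply, Matrix.mulVec, dotProduct]
          rfl
        rw [e3]
        rw [Matrix.mulVec_single_one, Pi.add_apply] at e2
        have e4 : g i j = g.col j i := rfl
        rw [e4, e2]
        ring
      rw [e1]
      exact hz j i
  obtain ⟨y, hy, hgy⟩ := c1 g g' hgg' hI
  -- the construction for the transpose of the inverse
  have hI' : ∀ i j, (g'.transpose - 1) i j ∈ t.I := by
    intro i j
    have e1 : g' - 1 = -(g' * (g - 1)) := by
      rw [mul_sub, hg'g, mul_one]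
      abel
    have e2 : (g'.transpose - 1) i j = (g' - 1) j i := by
      simp only [Matrix.sub_apply, Matrix.transpose_apply, Matrix.one_apply]
      congr 1
      by_cases hij : i = j
      · subst hij; rfl
      · rw [if_neg hij, if_neg (Ne.symm hij)]
    rw [e2, e1, Matrix.neg_apply, Matrix.mul_apply]
    exact t.I.neg_mem (t.I.sum_mem (fun k _ => t.I.mul_mem_left _ (hI k i)))
  have hgT : g'.transpose * g.transpose = 1 := by
    rw [← Matrix.transpose_mul, hgg', Matrix.transpose_one]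
  obtain ⟨w, hw, hgw⟩ := c1 g'.transpose g.transpose hgT hI'
  have hw' : ∀ i j, (w.transpose - 1) i j ∈ t.P 0 := by
    intro i j
    have e2 : (w.transpose - 1) i j = (w - 1) j i := by
      simp only [Matrix.sub_apply, Matrix.transpose_apply, Matrix.one_apply]
      congr 1
      by_cases hij : i = j
      · subst hij; rfl
      · rw [if_neg hij, if_neg (Ne.symm hij)]
    rw [e2]
    exact hw j i
  refine ⟨y, w.transpose, hy, hw', ?_, hgy⟩
  -- `x'ᵀ x = y'ᵀ y`
  have h1 : w.transpose * y = (g'.transpose * w).transpose * (g * y) := by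
    rw [Matrix.transpose_mul, Matrix.transpose_transpose, Matrix.mul_assoc, ← Matrix.mul_assoc g',
      hg'g, Matrix.one_mul]
  ext i j
  have h2 : (w.transpose * y - 1) i j ∈ t.Q 0 := by
    rw [Matrix.sub_apply]
    refine (t.Q 0).sub_mem ?_ ?_
    · rw [h1, Matrix.mul_apply]
      refine (t.Q 0).sum_mem (fun k _ => ?_)
      have := t.QQ (hgw k i) (hgy k j)
      rwa [add_zero] at this
    · rw [Matrix.one_apply]
      split_ifs
      · exact t.D_Q le_rfl t.one_mem
      · exact (t.Q 0).zero_mem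
  have h3 : (w.transpose * y - 1) i j ∈ t.P 0 := by
    have e1 : w.transpose * y - 1 = (w.transpose - 1) * (y - 1) + (w.transpose - 1) + (y - 1) := by
      noncomm_ring
    rw [e1, Matrix.add_apply, Matrix.add_apply, Matrix.mul_apply]
    exact (t.P 0).add_mem ((t.P 0).add_mem ((t.P 0).sum_mem (fun k _ => t.PP (hw' i k) (hy k j)))
      (hw' i j)) (hy i j)
  have h4 := t.disj h3 h2
  rw [Matrix.sub_apply, sub_eq_zero] at h4
  exact h4

end Toep

end GB
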