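import Mathlib
import Pool.Agent.helper89.GB.Grd
import Pool.Agent.helper89.GB.Toep

/-!
# Project gb: D1 (the decomposition of `E = Σ⁻¹ D`) and D5 (the factorization).
-/

set_option linter.unusedSectionVars false

namespace GB

open Matrix

namespace Grd

variable {D : Type*} [CommRing D] (G : Grd D)

section local0

/-- under `Loc`, the non-units of `D_0` are closed under addition -/
theorem nonunit_add (hloc : G.Loc) {x y : D} (hx : x ∈ G.A 0)
    (hx' : ¬ ∃ z ∈ G.A 0, x * z = 1) (hy' : ¬ ∃ z ∈ G.A 0, y * z = 1) :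
    ¬ ∃ z ∈ G.A 0, (x + y) * z = 1 := by
  rintro ⟨z, hz, h⟩
  have h0 : ∀ {a b : D}, a ∈ G.A 0 → b ∈ G.A 0 → a * b ∈ G.A 0 := fun ha hb => by
    have := G.mul_mem ha hb
    rwa [add_zero] at this
  rcases hloc.2 (x * z) (h0 hx hz) with ⟨w, hw, h1⟩ | ⟨w, hw, h1⟩
  · exact hx' ⟨z * w, h0 hz hw, by rw [← mul_assoc]; exact h1⟩
  · refine hy' ⟨z * w, h0 hz hw, ?_⟩
    rw [← h1]
    linear_combination w * h

/-- D2: the degree zero component of an element of `MM` is not a unit of `D_0` -/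
theorem pr_zero_MM (hloc : G.Loc) {x : D} (hx : x ∈ G.MM) : ¬ ∃ z ∈ G.A 0, G.pr 0 x * z = 1 := by
  have hx' : x ∈ Submodule.span D {x | (∃ j, x ∈ G.A j) ∧ ¬ IsUnit x} := hx
  rw [Submodule.mem_span_set'] at hx'
  obtain ⟨n, f, c, rfl⟩ := hx'
  rw [map_sum]
  have key : ∀ s : Finset (Fin n), ¬ ∃ z ∈ G.A 0, (∑ i ∈ s, G.pr 0 (f i • (c i : D))) * z = 1 := by
    intro s
    induction s using Finset.induction_on with
    | empty =>
      rintro ⟨z, _, h⟩
      rw [Finset.sum_empty, zero_mul] at h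
      exact hloc.1 h.symm
    | insert a s ha ih =>
      rw [Finset.sum_insert ha]
      refine G.nonunit_add hloc (G.pr_mem 0 _) ?_ ih
      rintro ⟨z, _, h⟩
      obtain ⟨⟨j, hj⟩, hu⟩ := (c a).2
      rw [smul_eq_mul, mul_comm (f a), G.pr_mul_of_mem hj, mul_assoc] at h
      exact hu (IsUnit.of_mul_eq_one _ h)
  exact key Finset.univ

theorem MM_ne_top (hloc : G.Loc) : G.MM ≠ ⊤ := by
  intro h
  have h1 : (1 : D) ∈ G.MM := by rw [h]; trivial
  refine G.pr_zero_MM hloc h1 ⟨1, G.one_mem, ?_⟩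
  rw [G.pr_same G.one_mem, mul_one]

/-- elements of `MM` of degree zero: `1 - x` is a unit of `D_0` -/
theorem MM_unit (hloc : G.Loc) {x : D} (hx : x ∈ G.A 0) (hx' : x ∈ G.MM) :
    ∃ y ∈ G.A 0, y * (1 - x) = 1 := by
  rcases hloc.2 x hx with h | ⟨y, hy, h⟩
  · exfalso
    refine G.pr_zero_MM hloc hx' ?_
    rw [G.pr_same hx]
    exact h
  · exact ⟨y, hy, by rw [mul_comm]; exact h⟩

/-- a homogeneous element outside `MM` is a unit -/
theorem isUnit_of_notMem_MM {j : ℤ} {x : D} (hx : x ∈ G.A j) (hx' : x ∉ G.MM) : IsUnit x := by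
  by_contra h
  exact hx' (Ideal.subset_span ⟨⟨j, hx⟩, h⟩)

/-- the inverse of a homogeneous unit may be taken homogeneous -/
theorem exists_inv_of_isUnit {j : ℤ} {x : D} (hx : x ∈ G.A j) (hu : IsUnit x) :
    ∃ y ∈ G.A (-j), x * y = 1 := by
  obtain ⟨z, hz⟩ := hu.exists_right_inv
  refine ⟨G.pr (-j) z, G.pr_mem _ _, ?_⟩
  have h1 := G.pr_mul_of_mem hx 0 z
  rw [hz, G.pr_same G.one_mem, zero_sub] at h1
  exact h1.symm

/-- `MM` is a homogeneous ideal -/
theorem pr_mem_MM {x : D} (hx : x ∈ G.MM) (j : ℤ) : G.pr j x ∈ G.MM := by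
  have hx' : x ∈ Submodule.span D {x | (∃ j, x ∈ G.A j) ∧ ¬ IsUnit x} := hx
  rw [Submodule.mem_span_set'] at hx'
  obtain ⟨n, f, c, rfl⟩ := hx'
  rw [map_sum]
  refine G.MM.sum_mem (fun i _ => ?_)
  obtain ⟨⟨k, hk⟩, hu⟩ := (c i).2
  rw [smul_eq_mul, mul_comm (f i), G.pr_mul_of_mem hk]
  exact G.MM.mul_mem_right _ (Ideal.subset_span ⟨⟨k, hk⟩, hu⟩)

end local0

section sigma

theorem Sigma_le_Le {s : D} (hs : s ∈ G.Sigma) : s ∈ G.Le 0 := by
  have h1 : s = (s - 1) + 1 := by ring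
  rw [h1]
  exact (G.Le 0).add_mem (G.Le_mono (by norm_num) hs) (G.one_mem_Le le_rfl)

/-- division by an element of `Sigma` does not change the degree -/
theorem Le_of_mul_sigma {s : D} (hs : s ∈ G.Sigma) {x : D} {h : ℤ} (hx : x * s ∈ G.Le h) :
    x ∈ G.Le h := by
  -- descending induction on the degree
  have key : ∀ n : ℕ, x ∈ G.Le (h + n) → x ∈ G.Le h := by
    intro n
    induction n with
    | zero => intro h1; simpa using h1
    | succ n ih =>
      intro h1
      refine ih (fun j hj => ?_)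
      rcases lt_or_eq_of_le (show h + n + 1 ≤ j by omega) with h2 | h2
      · exact h1 j (by push_cast; omega)
      · have h3 : x = x * s - x * (s - 1) := by ring
        have h4 : x * (s - 1) ∈ G.Le (h + n) := by
          have := G.Le_mul h1 hs
          exact G.Le_mono (by push_cast; omega) this
        rw [h3, map_sub, hx j (by omega), h4 j (by omega), sub_zero]
  obtain ⟨n, hn⟩ := G.exists_Le x
  refine key (n - h).toNat (G.Le_mono ?_ hn)
  have := Int.self_le_toNat (n - h)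
  omega

theorem Sigma_nonZeroDivisors : G.Sigma ≤ nonZeroDivisors D := by
  intro s hs
  rw [mem_nonZeroDivisors_iff_right]
  intro x hx
  exact G.eq_zero_of_Le (fun k => G.Le_of_mul_sigma hs (by rw [hx]; exact (G.Le k).zero_mem))

end sigma

section loc

variable (L : Type*) [CommRing L] [Algebra D L] [IsLocalization G.Sigma L]

include G in
theorem algebraMap_injective : Function.Injective (algebraMap D L) :=
  IsLocalization.injective L G.Sigma_nonZeroDivisors

/-- elements of `E = Σ⁻¹ D` of degree at most `h` -/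
def QL (h : ℤ) : AddSubgroup L where
  carrier := {x | ∃ s ∈ G.Sigma, ∃ g ∈ G.Le h, x * algebraMap D L s = algebraMap D L g}
  zero_mem' := ⟨1, G.Sigma.one_mem, 0, (G.Le h).zero_mem, by simp⟩
  add_mem' := by
    rintro a b ⟨s, hs, g, hg, h1⟩ ⟨s', hs', g', hg', h2⟩
    refine ⟨s * s', G.Sigma.mul_mem hs hs', g * s' + g' * s, ?_, ?_⟩
    · refine (G.Le h).add_mem ?_ ?_
      · have := G.Le_mul hg (G.Sigma_le_Le hs')
        rwa [add_zero] at this
      · have := G.Le_mul hg' (G.Sigma_le_Le hs)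
        rwa [add_zero] at this
    · rw [map_add, map_mul, map_mul, map_mul, ← h1, ← h2]
      ring
  neg_mem' := by
    rintro a ⟨s, hs, g, hg, h1⟩
    exact ⟨s, hs, -g, (G.Le h).neg_mem hg, by rw [neg_mul, h1, map_neg]⟩

theorem mem_QL {h : ℤ} {x : L} : x ∈ G.QL L h ↔
    ∃ s ∈ G.Sigma, ∃ g ∈ G.Le h, x * algebraMap D L s = algebraMap D L g := Iff.rfl

theorem QL_of_Le {h : ℤ} {x : D} (hx : x ∈ G.Le h) : algebraMap D L x ∈ G.QL L h :=
  ⟨1, G.Sigma.one_mem, x, hx, by simp⟩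

/-- an element of `D` which has degree at most `h` in `E` has degree at most `h` in `D` -/
theorem Le_of_QL {h : ℤ} {x : D} (hx : algebraMap D L x ∈ G.QL L h) : x ∈ G.Le h := by
  obtain ⟨s, hs, g, hg, h1⟩ := hx
  rw [← map_mul] at h1
  have h2 := G.algebraMap_injective L h1
  exact G.Le_of_mul_sigma hs (by rw [h2]; exact hg)

theorem QL_mul {h k : ℤ} {x y : L} (hx : x ∈ G.QL L h) (hy : y ∈ G.QL L k) :
    x * y ∈ G.QL L (h + k) := by
  obtain ⟨s, hs, g, hg, h1⟩ := hx
  obtain ⟨s', hs', g', hg', h2⟩ := hy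
  refine ⟨s * s', G.Sigma.mul_mem hs hs', g * g', G.Le_mul hg hg', ?_⟩
  rw [map_mul, map_mul, ← h1, ← h2]
  ring

theorem QL_mono {h k : ℤ} (hk : h ≤ k) : G.QL L h ≤ G.QL L k := by
  rintro x ⟨s, hs, g, hg, h1⟩
  exact ⟨s, hs, g, G.Le_mono hk hg, h1⟩

theorem QL_exists (x : L) : ∃ m : ℤ, x ∈ G.QL L m := by
  obtain ⟨⟨g, s⟩, h⟩ := IsLocalization.surj G.Sigma x
  obtain ⟨n, hn⟩ := G.exists_Le g
  exact ⟨n, s, s.2, g, hn, h⟩

theorem QL_split (h : ℤ) (m : ℕ) : ∀ {x : L}, x ∈ G.QL L (h + m) →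
    ∃ d : ℤ → L, (∀ j, ∃ e ∈ G.A j, algebraMap D L e = d j) ∧
      x - ∑ j ∈ Finset.Ioc h (h + m), d j ∈ G.QL L h := by
  induction m with
  | zero =>
    intro x hx
    refine ⟨0, fun j => ⟨0, (G.A j).zero_mem, by simp⟩, ?_⟩
    simpa using hx
  | succ m ih =>
    intro x hx
    obtain ⟨s, hs, g, hg, h1⟩ := hx
    set t : ℤ := h + m + 1 with ht
    have ht' : h + ((m + 1 : ℕ) : ℤ) = t := by push_cast; omega
    rw [ht'] at hg ⊢
    have h2 : x - algebraMap D L (G.pr t g) ∈ G.QL L (h + m) := by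
      refine ⟨s, hs, g - G.pr t g * s, fun j hj => ?_, ?_⟩
      · have e1 : g - G.pr t g * s = (g - G.pr t g) - G.pr t g * (s - 1) := by ring
        have e2 : G.pr t g * (s - 1) ∈ G.Le (h + m) := by
          have := G.Le_mul (G.A_le_Le le_rfl (G.pr_mem t g)) hs
          exact G.Le_mono (by omega) this
        rw [e1, map_sub, e2 j hj, sub_zero, map_sub, G.pr_pr]
        rcases eq_or_lt_of_le (show t ≤ j by omega) with h3 | h3
        · rw [if_pos h3.symm, h3, sub_self]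
        · rw [if_neg (by omega), hg j (by omega), sub_zero]
      · rw [sub_mul, h1, map_sub, map_mul]
    obtain ⟨d, hd, h3⟩ := ih h2
    refine ⟨Function.update d t (algebraMap D L (G.pr t g)), fun j => ?_, ?_⟩
    · by_cases hj : j = t
      · subst hj
        rw [Function.update_self]
        exact ⟨_, G.pr_mem _ _, rfl⟩
      · rw [Function.update_of_ne hj]
        exact hd j
    · have e1 : Finset.Ioc h t = insert t (Finset.Ioc h (h + m)) := by
        ext j
        simp only [Finset.mem_Ioc, Finset.mem_insert]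
        omega
      have e2 : t ∉ Finset.Ioc h (h + m) := by
        simp only [Finset.mem_Ioc]
        omega
      rw [e1, Finset.sum_insert e2, Function.update_self]
      have e3 : ∑ j ∈ Finset.Ioc h (h + m), Function.update d t (algebraMap D L (G.pr t g)) j =
          ∑ j ∈ Finset.Ioc h (h + m), d j := by
        refine Finset.sum_congr rfl (fun j hj => ?_)
        rw [Function.update_of_ne]
        rintro rfl
        exact e2 hj
      rw [e3, ← sub_sub]
      exact h3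

/-- the Toeplitz data of the localization `E = Σ⁻¹ D` -/
def toep (hloc : G.Loc) : Toep L where
  D j := (G.A j).map (algebraMap D L : D →+ L)
  P h := (G.Gt h).map (algebraMap D L : D →+ L)
  Q h := G.QL L h
  M j := (G.A j ⊓ G.MM.toAddSubgroup).map (algebraMap D L : D →+ L)
  one_mem := ⟨1, G.one_mem, by simp⟩
  D_P := by
    rintro h j hj _ ⟨x, hx, rfl⟩
    exact ⟨x, G.A_le_Gt hj hx, rfl⟩
  D_Q := by
    rintro h j hj _ ⟨x, hx, rfl⟩
    exact G.QL_of_Le L (G.A_le_Le hj hx)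
  DP := by
    rintro i h _ _ ⟨x, hx, rfl⟩ ⟨y, hy, rfl⟩
    exact ⟨x * y, G.A_mul_Gt hx hy, by simp⟩
  PP := by
    rintro _ _ ⟨x, hx, rfl⟩ ⟨y, hy, rfl⟩
    exact ⟨x * y, G.Gt_anti (by norm_num) (G.Gt_mul hx hy), by simp⟩
  DQ := by
    rintro i h _ y ⟨x, hx, rfl⟩ hy
    exact G.QL_mul L (G.QL_of_Le L (G.A_le_Le le_rfl hx)) hy
  QQ := fun hx hy => G.QL_mul L hx hy
  Q_mono := fun hk => G.QL_mono L hk
  exists_Q := G.QL_exists L
  PQ := by
    intro h x
    obtain ⟨m, hm⟩ := G.QL_exists L x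
    have hm' : x ∈ G.QL L (h + (m - h).toNat) := by
      refine G.QL_mono L ?_ hm
      have := Int.self_le_toNat (m - h)
      omega
    obtain ⟨d, hd, h1⟩ := G.QL_split L h _ hm'
    refine ⟨∑ j ∈ Finset.Ioc h (h + (m - h).toNat), d j, ?_, _, h1, by ring⟩
    refine AddSubgroup.sum_mem _ (fun j hj => ?_)
    obtain ⟨e, he, he'⟩ := hd j
    rw [Finset.mem_Ioc] at hj
    exact ⟨e, G.A_le_Gt hj.1 he, he'⟩
  disj := by
    rintro _ ⟨x, hx, rfl⟩ h
    have h1 : x ∈ G.Le 0 := G.Le_of_QL L h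
    have h2 : x = 0 := G.ext_pr (fun j => by
      rw [map_zero]
      rcases le_or_gt j 0 with h3 | h3
      · exact hx j h3
      · exact h1 j h3)
    rw [h2, map_zero]
  split := by
    intro h m x hx
    obtain ⟨d, hd, h1⟩ := G.QL_split L h m hx
    exact ⟨d, fun j => by obtain ⟨e, he, he'⟩ := hd j; exact ⟨e, he, he'⟩, h1⟩
  M_le := by
    rintro j _ ⟨x, hx, rfl⟩
    exact ⟨x, hx.1, rfl⟩
  M_mul := by
    rintro i j _ _ ⟨x, hx, rfl⟩ ⟨y, hy, rfl⟩
    exact ⟨x * y, ⟨G.mul_mem hx hy.1, G.MM.mul_mem_left _ hy.2⟩, by simp⟩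
  M_unit := by
    rintro _ ⟨x, hx, rfl⟩
    obtain ⟨y, hy, h1⟩ := G.MM_unit hloc hx.1 hx.2
    exact ⟨algebraMap D L y, ⟨y, hy, rfl⟩, by
      have := congrArg (algebraMap D L) h1
      rw [map_mul, map_sub, map_one] at this
      exact this⟩

theorem toep_I (hloc : G.Loc) : G.MM.map (algebraMap D L) ≤ (G.toep L hloc).I := by
  rw [MM, Ideal.map_span, Ideal.span_le]
  rintro _ ⟨x, ⟨⟨j, hj⟩, hu⟩, rfl⟩
  refine Ideal.subset_span (Set.mem_iUnion.2 ⟨j, x, ⟨hj, Ideal.subset_span ⟨⟨j, hj⟩, hu⟩⟩, rfl⟩)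

/-- **D5**: factorization over a graded ring with `D_0` local. -/
theorem factorL (hloc : G.Loc) {ι : Type*} [Fintype ι] [DecidableEq ι] (g g' : Matrix ι ι L)
    (hgg' : g * g' = 1) (hI : ∀ i j, (g - 1) i j ∈ G.MM.map (algebraMap D L)) :
    ∃ y : Matrix ι ι G.DGe, IsUnit y.det ∧ ∀ (i : ι) (v : ι → G.DGe),
      (∀ j, algebraMap D L (v j) = g i j) → ∀ j, ((v ᵥ* y) j : D) ∈ G.A 0 := by
  obtain ⟨y, y', hy, hy', hyy, hQ⟩ := (G.toep L hloc).factor hgg' (fun i j => G.toep_I L hloc (hI i j))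
  -- lift `y`, `y'` to matrices over `D_{≥0}`
  have lift : ∀ y : Matrix ι ι L, (∀ i j, (y - 1) i j ∈ (G.toep L hloc).P 0) →
      ∃ Y : Matrix ι ι G.DGe, Y.map (fun x : G.DGe => algebraMap D L x) = y := by
    intro y hy
    have h1 : ∀ i j, ∃ x : G.DGe, algebraMap D L x = y i j := by
      intro i j
      obtain ⟨x, hx, hx'⟩ := hy i j
      have hx0 : x ∈ G.DGe := fun k hk => hx k (by omega)
      have hx1 : algebraMap D L x = (y - 1) i j := hx'
      refine ⟨⟨x + (1 : Matrix ι ι D) i j, G.DGe.add_mem hx0 ?_⟩, ?_⟩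
      · rw [Matrix.one_apply]
        split_ifs
        · exact G.DGe.one_mem
        · exact G.DGe.zero_mem
      · show algebraMap D L (x + (1 : Matrix ι ι D) i j) = y i j
        rw [map_add, hx1, Matrix.sub_apply, Matrix.one_apply, Matrix.one_apply]
        split_ifs <;> simp
    choose Y hY using h1
    exact ⟨Matrix.of Y, by ext i j; simpa using hY i j⟩
  obtain ⟨Y, hY⟩ := lift y hy
  obtain ⟨Y', hY'⟩ := lift y' hy'
  set φ : G.DGe →+* L := (algebraMap D L).comp G.DGe.subtype with hφ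
  have hφinj : Function.Injective φ := (G.algebraMap_injective L).comp Subtype.val_injective
  have hYφ : Y.map φ = y := hY
  have hYφ' : Y'.map φ = y' := hY'
  have hYY : Y' * Y = 1 := by
    have h1 : (Y' * Y).map φ = (1 : Matrix ι ι G.DGe).map φ := by
      rw [Matrix.map_mul, hYφ, hYφ', hyy, Matrix.map_one φ (map_zero φ) (map_one φ)]
    exact Matrix.ext (fun i j => hφinj (congrFun (congrFun h1 i) j))
  refine ⟨Y, ?_, ?_⟩
  · have h1 := congrArg Matrix.det hYY
    rw [Matrix.det_mul, Matrix.det_one] at h1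
    exact IsUnit.of_mul_eq_one_right _ h1
  · intro i v hv j
    have h1 : φ ((v ᵥ* Y) j) = (g * y) i j := by
      rw [Matrix.vecMul, dotProduct, map_sum, Matrix.mul_apply]
      refine Finset.sum_congr rfl (fun k _ => ?_)
      rw [map_mul, ← hYφ, Matrix.map_apply, ← hv k]
      rfl
    have h2 : algebraMap D L ((v ᵥ* Y) j : G.DGe) ∈ G.QL L 0 := by
      have := hQ i j
      rw [← h1] at this
      exact this
    have h3 := G.Le_of_QL L h2
    have h4 : ((v ᵥ* Y) j : D) = G.pr 0 ((v ᵥ* Y) j : D) := by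
      refine G.ext_pr (fun k => ?_)
      rw [G.pr_pr]
      split_ifs with hk
      · rw [hk]
      · rcases lt_or_gt_of_ne hk with h5 | h5
        · exact ((v ᵥ* Y) j).2 k h5
        · exact h3 k h5
    rw [h4]
    exact G.pr_mem 0 _

end loc

theorem D5 : D5_stmt := by
  intro D _ G hloc ι _ _ g g' hgg' hI
  exact G.factorL (Localization G.Sigma) hloc g g' hgg' hI

end Grd

end GB
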